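import Mathlib

/-! A small verified checker for reverse unit propagation proofs. -/

set_option autoImplicit false

namespace Pool.Agent.P.MP_61d55c_co.Ex

/-- evaluate a number before passing it on -/
noncomputable def force {α : Type} (x : ℕ) (k : ℕ → α) : α :=
  Nat.rec (k 0) (fun n _ => k (Nat.succ n)) x

lemma force_eq {α : Type} (x : ℕ) (k : ℕ → α) : force x k = k x := by cases x <;> rfl

/-- inner node of a table -/
noncomputable def nd (m : ℕ) (l r : ℕ → ℕ) (i : ℕ) : ℕ :=
  Nat.rec (l i) (fun _ _ => r i) (Nat.land i m)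

/-- lowest node of a table -/
noncomputable def n2 (a b i : ℕ) : ℕ := Nat.rec a (fun _ _ => b) (Nat.land i 1)

/-- the `i`-th literal of a record -/
def lit (r i : ℕ) : ℕ := Nat.land (Nat.shiftRight r (Nat.add 7 (Nat.mul 12 i))) 4095

/-- the mask of the first `n` literals of a record -/
noncomputable def mask (s r n : ℕ) : ℕ :=
  Nat.rec s (fun i m => Nat.lor m (Nat.shiftLeft 4294967296 (lit r i))) n

lemma mask_bit (s r : ℕ) {n i : ℕ} (h : i < n) :
    (mask s r n).testBit (lit r i + 32) = true := by
  induction n with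
  | zero => omega
  | succ n ih =>
    have e : mask s r (n + 1) = mask s r n ||| (4294967296 <<< lit r n) := rfl
    have e2 : 4294967296 <<< lit r n = 2 ^ (lit r n + 32) := by
      rw [Nat.shiftLeft_eq, pow_add, mul_comm]; norm_num
    rw [e, Nat.testBit_or, e2]
    rcases Nat.lt_succ_iff_lt_or_eq.1 h with h | h
    · rw [ih h]; rfl
    · rw [h, Nat.testBit_two_pow_self]; simp

/-- the mask of clause number `i` -/
noncomputable def cm (db : ℕ → ℕ) (i : ℕ) : ℕ :=
  force (db i) fun r => mask i r (Nat.land r 127)

/-- a clause mask holds a true literal -/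
def Val (T : ℕ → Prop) (c : ℕ) : Prop := ∃ l, c.testBit (l + 32) = true ∧ T l

/-- unit propagation along packed hints; `F` is the mask of false literals -/
noncomputable def prop (db : ℕ → ℕ) (i n : ℕ) : ℕ → ℕ → Bool :=
  Nat.rec (fun F h => force (Nat.mod h i) fun j => force (cm db j) fun D =>
      Nat.ble (Nat.xor D (Nat.land D F)) 4294967295)
    (fun _ ih F h => force (Nat.land h 4095) fun l =>
      force (Nat.mod (Nat.land (Nat.shiftRight h 12) 16383) i) fun j => force (cm db j) fun D =>
      Bool.rec false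
        (force (Nat.xor (Nat.lor F (Nat.shiftLeft 4294967296 (Nat.xor l 1))) (Nat.land h 67108863))
          fun F' => force (Nat.shiftRight h 26) fun h' => ih F' h')
        (Nat.ble (Nat.xor D (Nat.land D (Nat.lor F (Nat.shiftLeft 4294967296 l)))) 4294967295)) n

lemma bit_one (l m : ℕ) : (Nat.shiftLeft 4294967296 l).testBit (m + 32) = true → m = l := by
  have : Nat.shiftLeft 4294967296 l = 2 ^ (l + 32) := by
    show 4294967296 <<< l = _
    rw [Nat.shiftLeft_eq, pow_add, mul_comm]; norm_num
  rw [this, Nat.testBit_two_pow]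
  intro h
  have := of_decide_eq_true h
  omega

lemma bit_low {x : ℕ} (h : x ≤ 4294967295) (m : ℕ) : x.testBit (m + 32) = false :=
  Nat.testBit_lt_two_pow (lt_of_lt_of_le (by omega : x < 2 ^ 32)
    (Nat.pow_le_pow_right (by norm_num) (by omega)))

lemma bit_land {D F m : ℕ} (h : Nat.ble (Nat.xor D (Nat.land D F)) 4294967295 = true)
    (hm : D.testBit (m + 32) = true) : F.testBit (m + 32) = true := by
  have e : (D ^^^ (D &&& F)).testBit (m + 32) = false := bit_low (Nat.le_of_ble_eq_true h) m
  rw [Nat.testBit_xor, Nat.testBit_and, hm] at e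
  revert e
  cases F.testBit (m + 32) <;> simp

lemma bit_xor {F h m : ℕ} (e : (Nat.xor F (Nat.land h 67108863)).testBit (m + 32) = true) :
    F.testBit (m + 32) = true := by
  have e' : (F ^^^ (h &&& 67108863)).testBit (m + 32) = true := e
  rw [Nat.testBit_xor, bit_low (le_trans Nat.and_le_right (by norm_num)) m] at e'
  simpa using e'

lemma bit_lor {F G m : ℕ} (h : (Nat.lor F G).testBit m = true) :
    F.testBit m = true ∨ G.testBit m = true := by
  have : (F ||| G).testBit m = true := h
  rw [Nat.testBit_or] at this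
  exact Bool.or_eq_true_iff.1 this

lemma brec {x b : Bool} (h : (Bool.rec false x b : Bool) = true) : b = true ∧ x = true := by
  cases b
  · exact Bool.noConfusion h
  · exact ⟨rfl, h⟩

lemma prop_sound {T : ℕ → Prop} (hc : ∀ l, T l → ¬ T (Nat.xor l 1)) {db : ℕ → ℕ} {i : ℕ}
    (hi : 0 < i) (ht : ∀ j < i, Val T (cm db j)) (n F h : ℕ)
    (hF : ∀ l, F.testBit (l + 32) = true → ¬ T l) : prop db i n F h ≠ true := by
  induction n generalizing F h with
  | zero =>
    intro e
    have e' : (force (Nat.mod h i) fun j => force (cm db j) fun D =>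
      Nat.ble (Nat.xor D (Nat.land D F)) 4294967295) = true := e
    rw [force_eq, force_eq] at e'
    obtain ⟨l, h1, h2⟩ := ht (Nat.mod h i) (Nat.mod_lt _ hi)
    exact hF l (bit_land e' h1) h2
  | succ n ih =>
    intro e
    have e' : (force (Nat.land h 4095) fun l =>
      force (Nat.mod (Nat.land (Nat.shiftRight h 12) 16383) i) fun j => force (cm db j) fun D =>
      (Bool.rec false
        (force (Nat.xor (Nat.lor F (Nat.shiftLeft 4294967296 (Nat.xor l 1))) (Nat.land h 67108863))
          fun F' => force (Nat.shiftRight h 26) fun h' => prop db i n F' h')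
        (Nat.ble (Nat.xor D (Nat.land D (Nat.lor F (Nat.shiftLeft 4294967296 l)))) 4294967295) :
          Bool)) = true := e
    rw [force_eq, force_eq, force_eq, force_eq, force_eq] at e'
    obtain ⟨m, h1, h2⟩ := ht (Nat.mod (Nat.land (Nat.shiftRight h 12) 16383) i) (Nat.mod_lt _ hi)
    obtain ⟨hb, e''⟩ := brec e'
    have hl : T (Nat.land h 4095) := by
      rcases bit_lor (bit_land hb h1) with h3 | h3
      · exact absurd h2 (hF m h3)
      · exact bit_one _ _ h3 ▸ h2
    refine ih _ _ (fun m hm => ?_) e''
    rcases bit_lor (bit_xor hm) with h3 | h3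
    · exact hF m h3
    · exact bit_one _ _ h3 ▸ hc _ hl

/-- what follows the literals of a record -/
def pay (r : ℕ) : ℕ := Nat.shiftRight r (Nat.add 7 (Nat.mul 12 (Nat.land r 127)))

/-- check one record: a given clause (payload even) or a derived one (payload odd) -/
noncomputable def one (ok : ℕ → ℕ → Bool) (db : ℕ → ℕ) (i : ℕ) : Bool :=
  force (db i) fun r => force (pay r) fun p =>
    cond (Nat.beq (Nat.land p 1) 0) (ok r (Nat.shiftRight p 1))
      (Nat.ble 1 i && force (Nat.lor (cm db i) 12884901888) fun F =>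
        force (Nat.shiftRight p 13) fun h => prop db i (Nat.land (Nat.shiftRight p 1) 4095) F h)

/-- check the records `a, …, a + n - 1` -/
noncomputable def run (ok : ℕ → ℕ → Bool) (db : ℕ → ℕ) (a n : ℕ) : Bool :=
  Nat.rec true (fun i ih => Bool.rec false ih (force (Nat.add a i) (one ok db))) n

lemma run_one {ok : ℕ → ℕ → Bool} {db : ℕ → ℕ} {a n : ℕ} (h : run ok db a n = true) {i : ℕ}
    (h1 : a ≤ i) (h2 : i < a + n) : one ok db i = true := by
  induction n with
  | zero => omega
  | succ n ih =>
    obtain ⟨p, q⟩ := brec (x := run ok db a n) (b := force (Nat.add a n) (one ok db)) h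
    rw [force_eq] at p
    rcases (by omega : i < a + n ∨ i = a + n) with h | rfl
    · exact ih q h
    · exact p

/-- all records below `n` pass -/
def Upto (ok : ℕ → ℕ → Bool) (db : ℕ → ℕ) (n : ℕ) : Prop := ∀ i < n, one ok db i = true

lemma Upto.zero (ok : ℕ → ℕ → Bool) (db : ℕ → ℕ) : Upto ok db 0 := fun _ h => by omega

lemma Upto.step {ok : ℕ → ℕ → Bool} {db : ℕ → ℕ} {a n : ℕ} (h : Upto ok db a)
    (h' : run ok db a n = true) : Upto ok db (a + n) := fun i hi =>
  if h1 : i < a then h i h1 else run_one h' (by omega) hi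

theorem run_sound {T : ℕ → Prop} (h0 : ¬ T 0) (h1 : ¬ T 1)
    (hc : ∀ l, T l → ¬ T (Nat.xor l 1)) {ok : ℕ → ℕ → Bool}
    (hok : ∀ r p, ok r p = true → ∃ i < Nat.land r 127, T (lit r i)) {db : ℕ → ℕ} {n : ℕ}
    (hr : Upto ok db (n + 1)) (hn : Nat.ble (cm db n) 4294967295 = true) : False := by
  have key : ∀ i, i < n + 1 → Val T (cm db i) := by
    intro i
    induction i using Nat.strong_induction_on with
    | _ i ih =>
    intro hi
    have e := hr i hi
    unfold one at e
    rw [force_eq, force_eq, force_eq, force_eq] at e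
    revert e
    cases Nat.beq (Nat.land (pay (db i)) 1) 0
    · intro e
      rw [cond_false, Bool.and_eq_true, Nat.ble_eq] at e
      by_contra hn
      refine prop_sound hc e.1 (fun j hj => ih j hj (by omega)) _ _ _ (fun l hl hT => ?_) e.2
      rcases bit_lor hl with h3 | h3
      · exact hn ⟨l, h3, hT⟩
      · have : l < 2 := by
          by_contra hl2
          rw [Nat.testBit_lt_two_pow (lt_of_lt_of_le (by norm_num : 12884901888 < 2 ^ 34)
            (Nat.pow_le_pow_right (by norm_num) (by omega)))] at h3
          exact Bool.noConfusion h3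
        interval_cases l
        · exact h0 hT
        · exact h1 hT
    · intro e
      obtain ⟨j, hj, hT⟩ := hok _ _ e
      refine ⟨_, ?_, hT⟩
      rw [cm, force_eq]
      exact mask_bit _ _ hj
  obtain ⟨l, q, -⟩ := key n (by omega)
  rw [bit_low (Nat.le_of_ble_eq_true hn)] at q
  exact Bool.noConfusion q

end Pool.Agent.P.MP_61d55c_co.Ex
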