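import Mathlib
import Pool.Agent.P.MP_61d55c_co.Ex.Rup

/-! Signs of determinants of difference vectors as propositional literals. -/

set_option autoImplicit false

namespace Pool.Agent.P.MP_61d55c_co.Ex

/-- three-space -/
abbrev W := Fin 3 → ℝ

/-- determinant -/
def det3 (a b c : W) : ℝ :=
  a 0 * (b 1 * c 2 - b 2 * c 1) - a 1 * (b 0 * c 2 - b 2 * c 0) + a 2 * (b 0 * c 1 - b 1 * c 0)

/-- determinant of three difference vectors -/
def dt (p : ℕ → W) (a b c d e f : ℕ) : ℝ := det3 (p a - p b) (p c - p d) (p e - p f)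

/-- the `i`-th group of four bits -/
def nb (w i : ℕ) : ℕ := Nat.land (Nat.shiftRight w (Nat.mul 4 i)) 15

/-- the definition of variable `v` -/
def vd (VD v : ℕ) : ℕ := Nat.land (Nat.shiftRight VD (Nat.mul 24 v)) 16777215

/-- the determinant coded by `w` -/
def dw (p : ℕ → W) (w : ℕ) : ℝ := dt p (nb w 0) (nb w 1) (nb w 2) (nb w 3) (nb w 4) (nb w 5)

/-- the real value of a literal -/
noncomputable def R (p : ℕ → W) (VD l : ℕ) : ℝ :=
  (if l % 2 = 0 then 1 else -1) * dw p (vd VD (l / 2))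

/-- truth of a literal -/
def TT (p : ℕ → W) (VD l : ℕ) : Prop := 2 ≤ l ∧ 0 < R p VD l

lemma xor_one (l : ℕ) : Nat.xor l 1 / 2 = l / 2 ∧ (Nat.xor l 1 % 2 = 0 ↔ ¬ l % 2 = 0) := by
  have e : Nat.xor l 1 = l ^^^ 1 := rfl
  rw [e]
  rcases Nat.even_or_odd l with h | h
  · rw [Nat.xor_one_of_even h]; obtain ⟨k, rfl⟩ := h; omega
  · rw [Nat.xor_one_of_odd h]; obtain ⟨k, rfl⟩ := h; omega

lemma R_xor (p : ℕ → W) (VD l : ℕ) : R p VD (Nat.xor l 1) = -R p VD l := by
  obtain ⟨h1, h2⟩ := xor_one l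
  unfold R
  rw [h1]
  by_cases h : l % 2 = 0
  · rw [if_neg (fun e => h2.1 e h), if_pos h]; ring
  · rw [if_pos (h2.2 h), if_neg h]; ring

lemma TT_cons (p : ℕ → W) (VD l : ℕ) (h : TT p VD l) : ¬ TT p VD (Nat.xor l 1) := fun h' => by
  have := h'.2
  rw [R_xor] at this
  linarith [h.2]

/-- position among the heads of the basis -/
def ix (x0 x1 x2 i : ℕ) : ℕ :=
  cond (Nat.beq i x0) 0 (cond (Nat.beq i x1) 1 (cond (Nat.beq i x2) 2 3))

/-- root in the basis forest -/
def rt (x0 o0 x1 o1 x2 o2 i : ℕ) : ℕ :=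
  cond (Nat.beq i x0) o0 (cond (Nat.beq i x1) o1 (cond (Nat.beq i x2) o2 i))

/-- coefficient of the `t`-th basis vector -/
def cf (i j t : ℕ) : ℤ := (if i = t then 1 else 0) - (if j = t then 1 else 0)

/-- determinant of the change of basis -/
def sgZ (i j k l m n : ℕ) : ℤ :=
  cf i j 0 * (cf k l 1 * cf m n 2 - cf k l 2 * cf m n 1) -
    cf i j 1 * (cf k l 0 * cf m n 2 - cf k l 2 * cf m n 0) +
    cf i j 2 * (cf k l 0 * cf m n 1 - cf k l 1 * cf m n 0)

/-- table of these determinants -/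
def sgT : ℕ := 0x10101a8080851080000000000000000010101a8080851080202025402020254000000000a0a50500404a2040404a2040505a0a000000000000000000202025400000000108a1010010101a800000000010101a811881188000000000202025400000000108a101020452020224422442045202000000000000000000404a204204520200000000008085108000000002841412808085108108a10101482821400000000108a1010000000000404a20420452020000000000000000000000000020202540404a2040000000000000000020202540404a204010101a8010101a8000000000505a0a008085108080851080a0a5050000000000000000000000000000000000000000000000000000000000000000000000000000000000000000000000000000000000000000000000000000000000000000000000000020202540202025414828214010101a8000000000000000015808080010101a8000000000000000015808080284141282a4040402a40404000000000000000000404a204224422440404a20408085108000000002a404040000000001188118815808080000000001580808008085108000000002a4040400000000000000000010101a80000000020452020020202540000000002020254224422440000000001010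1a80000000020452020108a101011881188108a10100000000000000000010101a8010101a8284141280202025400000000000000002a4040400202025400000000000000002a4040401482821415808080158080800000000000000000000000000000000000000000000000000000000000000000000000000000000000000000000000000000000000000000000000000000000000000000000000000505a0a020452020204520200a0a5050000000002a4040402a404040108a1010158080800000000000000000108a10101580808000000000000000000000000008085108108a1010000000000404a20400000000148282140404a204204520202841412800000000204520200000000008085108108a101000000000000000000808510811881188080851080404a204000000001580808000000000224422442a404040000000002a4040400404a204000000001580808000000000000000000a0a5050108a1010108a10100505a0a0000000001580808015808080204520202a4040400000000000000000204520202a404040000000000000000000000000000000000000000000000000000000000000000000000000000000000000000000000000000000000000000000000000000000000000000000000000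

/-- table lookup -/
def sgL (i j k l m n : ℕ) : ℕ :=
  Nat.land (Nat.shiftRight sgT (Nat.add (Nat.add (Nat.add (Nat.mul 2 i) (Nat.mul 8 j))
    (Nat.add (Nat.mul 32 k) (Nat.mul 128 l))) (Nat.add (Nat.mul 512 m) (Nat.mul 2048 n)))) 3

set_option synthInstance.maxSize 2048 in
lemma sgL_ok : ∀ i < 4, ∀ j < 4, ∀ k < 4, ∀ l < 4, ∀ m < 4, ∀ n < 4,
    (sgL i j k l m n = 1 → sgZ i j k l m n = 1) ∧ (sgL i j k l m n = 2 → sgZ i j k l m n = -1) := by
  decide +kernel

lemma ix_lt (x0 x1 x2 i : ℕ) : ix x0 x1 x2 i < 4 := by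
  unfold ix
  cases Nat.beq i x0 <;> cases Nat.beq i x1 <;> cases Nat.beq i x2 <;> simp

lemma ix_rt (p : ℕ → W) (x0 o0 x1 o1 x2 o2 i : ℕ) (t : Fin 3) :
    p i t = p (rt x0 o0 x1 o1 x2 o2 i) t +
      (if ix x0 x1 x2 i = 0 then 1 else 0) * (p x0 t - p o0 t) +
      (if ix x0 x1 x2 i = 1 then 1 else 0) * (p x1 t - p o1 t) +
      (if ix x0 x1 x2 i = 2 then 1 else 0) * (p x2 t - p o2 t) := by
  unfold ix rt
  cases h0 : Nat.beq i x0
  · cases h1 : Nat.beq i x1
    · cases h2 : Nat.beq i x2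
      · simp
      · simp [Nat.eq_of_beq_eq_true h2]
    · simp [Nat.eq_of_beq_eq_true h1]
  · simp [Nat.eq_of_beq_eq_true h0]

lemma dt_basis (p : ℕ → W) {x0 o0 x1 o1 x2 o2 a b c d e f : ℕ}
    (h1 : rt x0 o0 x1 o1 x2 o2 a = rt x0 o0 x1 o1 x2 o2 b)
    (h2 : rt x0 o0 x1 o1 x2 o2 c = rt x0 o0 x1 o1 x2 o2 d)
    (h3 : rt x0 o0 x1 o1 x2 o2 e = rt x0 o0 x1 o1 x2 o2 f) :
    dt p a b c d e f = sgZ (ix x0 x1 x2 a) (ix x0 x1 x2 b) (ix x0 x1 x2 c) (ix x0 x1 x2 d)
      (ix x0 x1 x2 e) (ix x0 x1 x2 f) * dt p x0 o0 x1 o1 x2 o2 := by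
  have key : ∀ i j, rt x0 o0 x1 o1 x2 o2 i = rt x0 o0 x1 o1 x2 o2 j → ∀ t, p i t - p j t =
      cf (ix x0 x1 x2 i) (ix x0 x1 x2 j) 0 * (p x0 t - p o0 t) +
      cf (ix x0 x1 x2 i) (ix x0 x1 x2 j) 1 * (p x1 t - p o1 t) +
      cf (ix x0 x1 x2 i) (ix x0 x1 x2 j) 2 * (p x2 t - p o2 t) := by
    intro i j h t
    rw [ix_rt p x0 o0 x1 o1 x2 o2 i t, ix_rt p x0 o0 x1 o1 x2 o2 j t, h]
    simp only [cf]
    push_cast
    ring
  simp only [dt, det3, Pi.sub_apply, key a b h1, key c d h2, key e f h3, sgZ]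
  push_cast
  ring

/-- the determinant of the three differences is the value of literal `l` -/
noncomputable def chk (VD M a b c d e f l : ℕ) : Bool :=
  force (vd VD (Nat.shiftRight l 1)) fun w =>
  force (nb w 0) fun x0 => force (nb w 1) fun o0 => force (nb w 2) fun x1 =>
  force (nb w 3) fun o1 => force (nb w 4) fun x2 => force (nb w 5) fun o2 =>
  Nat.ble 2 l && Nat.ble l M &&
  Nat.beq (rt x0 o0 x1 o1 x2 o2 a) (rt x0 o0 x1 o1 x2 o2 b) &&
  Nat.beq (rt x0 o0 x1 o1 x2 o2 c) (rt x0 o0 x1 o1 x2 o2 d) &&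
  Nat.beq (rt x0 o0 x1 o1 x2 o2 e) (rt x0 o0 x1 o1 x2 o2 f) &&
  Nat.beq (sgL (ix x0 x1 x2 a) (ix x0 x1 x2 b) (ix x0 x1 x2 c) (ix x0 x1 x2 d)
      (ix x0 x1 x2 e) (ix x0 x1 x2 f)) (Nat.succ (Nat.land l 1))

lemma chk_sound (p : ℕ → W) {VD M a b c d e f l : ℕ} (h : chk VD M a b c d e f l = true) :
    dt p a b c d e f = R p VD l ∧ 2 ≤ l ∧ l ≤ M := by
  unfold chk at h
  simp only [force_eq, Bool.and_eq_true, Nat.ble_eq, Nat.beq_eq] at h
  obtain ⟨⟨⟨⟨⟨h1, h2⟩, h3⟩, h4⟩, h5⟩, h6⟩ := h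
  refine ⟨?_, h1, h2⟩
  have e1 : Nat.shiftRight l 1 = l / 2 := Nat.shiftRight_one l
  have e2 : Nat.land l 1 = l % 2 := Nat.and_one_is_mod l
  rw [e1] at h3 h4 h5 h6
  rw [e2] at h6
  rw [dt_basis p h3 h4 h5, R, dw]
  have := sgL_ok _ (ix_lt (nb (vd VD (l / 2)) 0) (nb (vd VD (l / 2)) 2) (nb (vd VD (l / 2)) 4) a)
    _ (ix_lt (nb (vd VD (l / 2)) 0) (nb (vd VD (l / 2)) 2) (nb (vd VD (l / 2)) 4) b)
    _ (ix_lt (nb (vd VD (l / 2)) 0) (nb (vd VD (l / 2)) 2) (nb (vd VD (l / 2)) 4) c)
    _ (ix_lt (nb (vd VD (l / 2)) 0) (nb (vd VD (l / 2)) 2) (nb (vd VD (l / 2)) 4) d)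
    _ (ix_lt (nb (vd VD (l / 2)) 0) (nb (vd VD (l / 2)) 2) (nb (vd VD (l / 2)) 4) e)
    _ (ix_lt (nb (vd VD (l / 2)) 0) (nb (vd VD (l / 2)) 2) (nb (vd VD (l / 2)) 4) f)
  rcases Nat.mod_two_eq_zero_or_one l with h | h
  · rw [h] at h6
    rw [this.1 h6, if_pos h]; simp
  · rw [h] at h6
    rw [this.2 h6, if_neg (by omega)]; simp

/-- `i` is one of `a, b, k` -/
def in3 (a b k i : ℕ) : Bool := Nat.beq i a || Nat.beq i b || Nat.beq i k

/-- the three differences live on three points -/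
noncomputable def zchk (a b c d e f : ℕ) : Bool :=
  force (cond (in3 a b a c) (cond (in3 a b a d) (cond (in3 a b a e) f e) d) c) fun k =>
  in3 a b k c && in3 a b k d && in3 a b k e && in3 a b k f

lemma zchk_sound (p : ℕ → W) {a b c d e f : ℕ} (h : zchk a b c d e f = true) :
    dt p a b c d e f = 0 := by
  unfold zchk at h
  rw [force_eq] at h
  generalize cond (in3 a b a c) (cond (in3 a b a d) (cond (in3 a b a e) f e) d) c = k at h
  have key : ∀ i, in3 a b k i = true → ∃ s t : ℝ, ∀ j, p i j = p a j + s * (p b j - p a j) +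
      t * (p k j - p a j) := by
    intro i hi
    simp only [in3, Bool.or_eq_true, Nat.beq_eq] at hi
    rcases hi with (rfl | rfl) | rfl
    · exact ⟨0, 0, fun j => by ring⟩
    · exact ⟨1, 0, fun j => by ring⟩
    · exact ⟨0, 1, fun j => by ring⟩
  simp only [Bool.and_eq_true] at h
  obtain ⟨⟨⟨h1, h2⟩, h3⟩, h4⟩ := h
  obtain ⟨s1, t1, e1⟩ := key c h1
  obtain ⟨s2, t2, e2⟩ := key d h2
  obtain ⟨s3, t3, e3⟩ := key e h3
  obtain ⟨s4, t4, e4⟩ := key f h4
  simp only [dt, det3, Pi.sub_apply]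
  rw [e1 0, e1 1, e1 2, e2 0, e2 1, e2 2, e3 0, e3 1, e3 2, e4 0, e4 1, e4 2]
  ring

/-- the sign coded by a bit -/
noncomputable def sg (s : Bool) : ℝ := cond s 1 (-1)

lemma sg_sq (s : Bool) : sg s * sg s = 1 := by cases s <;> simp [sg]

lemma sg_not (s : Bool) : sg (!s) = -sg s := by cases s <;> simp [sg]

lemma sg_xor (s t : Bool) : sg (xor s t) = -(sg s * sg t) := by cases s <;> cases t <;> simp [sg]

/-- if literal `i` of the record is false, the determinant has sign `s` -/
noncomputable def cnd (VD M r i : ℕ) (s : Bool) (a b c d e f : ℕ) : Bool :=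
  force (cond s (Nat.xor (lit r i) 1) (lit r i)) fun l => chk VD M a b c d e f l

/-- no variable vanishes -/
def NZ (p : ℕ → W) (VD nv : ℕ) : Prop := ∀ v, 1 ≤ v → v ≤ nv → dw p (vd VD v) ≠ 0

lemma R_neg {p : ℕ → W} {VD nv l : ℕ} (hN : NZ p VD nv) (h1 : 2 ≤ l) (h2 : l ≤ 2 * nv + 1)
    (h : ¬ TT p VD l) : R p VD l < 0 := by
  have h3 : R p VD l ≠ 0 := mul_ne_zero (by split_ifs <;> norm_num) (hN _ (by omega) (by omega))
  exact lt_of_le_of_ne (not_lt.1 fun h4 => h ⟨h1, h4⟩) h3

lemma cnd_sound {p : ℕ → W} {VD nv r i : ℕ} (hN : NZ p VD nv) {s : Bool} {a b c d e f : ℕ}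
    (h : cnd VD (2 * nv + 1) r i s a b c d e f = true) (hF : ¬ TT p VD (lit r i)) :
    0 < sg s * dt p a b c d e f := by
  unfold cnd at h
  rw [force_eq] at h
  obtain ⟨h1, h2, h3⟩ := chk_sound p h
  cases s
  · simp only [sg, cond_false] at h1 h2 h3 ⊢
    have := R_neg hN h2 h3 hF
    linarith
  · simp only [sg, cond_true] at h1 h2 h3 ⊢
    obtain ⟨q1, -⟩ := xor_one (lit r i)
    have := R_neg hN (l := lit r i) (by omega) (by omega) hF
    rw [h1, R_xor]
    linarith

end Pool.Agent.P.MP_61d55c_co.Ex
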