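import Mathlib

/-! Inequalities in the coordinates attached to two antipodal edges. -/

set_option autoImplicit false

namespace Pool.Agent.P.MP_61d55c_co.Ex

lemma sgnS {a b c h x1 y1 z1 x2 y2 z2 : ℝ} (hz1 : 0 < z1) (hz : z1 < z2) (hz2 : z2 < h)
    (hx1 : 0 < x1) (hx : x1 < x2) (hy2 : 0 < y2) (hy : y2 < y1)
    (m1 : 0 < a * x2 + b * y2 + c * z2) (m2 : c * h < a * x2 + b * y2 + c * z2)
    (n1 : a * x1 + b * y1 + c * z1 < 0) (n2 : a * x1 + b * y1 + c * z1 < c * h) :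
    0 < a ∧ b < 0 := by
  have k1 : a * x1 + b * y1 < 0 := by
    rcases le_total 0 c with hc | hc
    · nlinarith [mul_nonneg hc hz1.le]
    · nlinarith [mul_nonneg (neg_nonneg.2 hc) (by linarith : (0 : ℝ) ≤ h - z1)]
  have k2 : 0 < a * x2 + b * y2 := by
    rcases le_total 0 c with hc | hc
    · nlinarith [mul_nonneg hc (by linarith : (0 : ℝ) ≤ h - z2)]
    · nlinarith [mul_nonneg (neg_nonneg.2 hc) (by linarith : (0 : ℝ) ≤ z2)]
  have ha : 0 < a := by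
    by_contra ha
    push Not at ha
    have hb : 0 < b := by
      by_contra hb
      push Not at hb
      nlinarith [mul_nonneg (neg_nonneg.2 ha) (by linarith : (0 : ℝ) ≤ x2),
        mul_nonneg (neg_nonneg.2 hb) hy2.le]
    nlinarith [mul_nonneg (neg_nonneg.2 ha) (by linarith : (0 : ℝ) ≤ x2 - x1),
      mul_pos hb (sub_pos.2 hy)]
  refine ⟨ha, ?_⟩
  by_contra hb
  push Not at hb
  nlinarith [mul_pos ha hx1, mul_nonneg hb (by linarith : (0 : ℝ) ≤ y1)]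

/-- no antipodal pair in the middle of a one-sided chain -/
lemma lemA1 {a b c h x0 y0 z0 x1 y1 z1 x2 y2 z2 x3 y3 z3 : ℝ} (hz1 : 0 < z1) (hz2 : z2 < h)
    (z01 : z0 < z1) (z12 : z1 < z2) (z23 : z2 < z3) (hx1 : 0 < x1) (hy2 : 0 < y2)
    (x12 : x1 < x2) (x23 : x2 < x3) (y01 : y1 < y0) (y12 : y2 < y1)
    (s1 : 0 < (x1 - x0) * (z2 - z1) - (z1 - z0) * (x2 - x1))
    (s2 : 0 < (y2 - y3) * (z2 - z1) - (z3 - z2) * (y1 - y2))
    (m1 : 0 < a * x2 + b * y2 + c * z2) (m2 : c * h < a * x2 + b * y2 + c * z2)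
    (m3 : a * x3 + b * y3 + c * z3 < a * x2 + b * y2 + c * z2)
    (n1 : a * x1 + b * y1 + c * z1 < 0) (n2 : a * x1 + b * y1 + c * z1 < c * h)
    (n3 : a * x1 + b * y1 + c * z1 < a * x0 + b * y0 + c * z0) : False := by
  obtain ⟨ha, hb⟩ := sgnS hz1 z12 hz2 hx1 x12 hy2 y12 m1 m2 n1 n2
  have k1 : a * (x1 - x0) < -c * (z1 - z0) := by nlinarith [mul_pos (neg_pos.2 hb) (sub_pos.2 y01)]
  have k2 : -b * (y2 - y3) < -c * (z3 - z2) := by nlinarith [mul_pos ha (sub_pos.2 x23)]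
  have k3 : a * (x2 - x1) < -c * (z2 - z1) := by
    refine lt_of_mul_lt_mul_right ?_ (sub_pos.2 z01).le
    nlinarith [mul_pos ha s1, mul_lt_mul_of_pos_right k1 (sub_pos.2 z12)]
  have k4 : -b * (y1 - y2) < -c * (z2 - z1) := by
    refine lt_of_mul_lt_mul_right ?_ (sub_pos.2 z23).le
    nlinarith [mul_pos (neg_pos.2 hb) s2, mul_lt_mul_of_pos_right k2 (sub_pos.2 z12)]
  have hc : 0 < -c := by
    by_contra hc
    push Not at hc
    nlinarith [mul_pos ha (sub_pos.2 x12), mul_nonneg (neg_nonneg.2 hc) (sub_pos.2 z12).le]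
  nlinarith [mul_pos hc (by linarith : (0 : ℝ) < h - (z2 - z1))]

lemma lemE {a b c h x1 y1 z1 x2 y2 z2 x3 y3 z3 : ℝ} (hz1 : 0 < z1) (z12 : z1 < z2)
    (z23 : z2 < z3) (hz3 : z3 < h) (hx1 : 0 < x1) (x12 : x1 < x2) (x23 : x2 < x3)
    (hy3 : 0 < y3) (y23 : y3 < y2) (y12 : y2 < y1)
    (s2 : 0 < (y2 - y3) * (z2 - z1) - (z3 - z2) * (y1 - y2))
    (m1 : 0 < a * x2 + b * y2 + c * z2) (m2 : c * h < a * x2 + b * y2 + c * z2)
    (m3 : a * x3 + b * y3 + c * z3 < a * x2 + b * y2 + c * z2)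
    (n1 : a * x1 + b * y1 + c * z1 < 0) (n2 : a * x1 + b * y1 + c * z1 < c * h) :
    x1 * h * (y2 - y3) < y3 * (x2 - x1) * (z3 - z2) := by
  obtain ⟨ha, hb⟩ := sgnS hz1 z12 (by linarith) hx1 x12 (by linarith) y12 m1 m2 n1 n2
  have hb' := neg_pos.2 hb
  have k2 : -b * (y2 - y3) < -c * (z3 - z2) := by nlinarith [mul_pos ha (sub_pos.2 x23)]
  have k4 : -b * (y1 - y2) < -c * (z2 - z1) := by
    refine lt_of_mul_lt_mul_right ?_ (sub_pos.2 z23).le
    nlinarith [mul_pos hb' s2, mul_lt_mul_of_pos_right k2 (sub_pos.2 z12)]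
  have hc : 0 < -c := by
    by_contra hc
    push Not at hc
    nlinarith [mul_pos hb' (sub_pos.2 y23), mul_nonneg (neg_nonneg.2 hc) (sub_pos.2 z23).le]
  have k1 : a * x1 < -b * y3 := by nlinarith [mul_pos hc (sub_pos.2 hz3)]
  have k3 : -c * h < a * (x2 - x1) := by nlinarith
  have p1 := mul_lt_mul'' k1 k3 (mul_pos ha hx1).le (mul_pos hc (by linarith)).le
  have p2 := mul_lt_mul'' p1 k2 (mul_pos (mul_pos ha hx1) (mul_pos hc (by linarith))).le
    (mul_pos hb' (sub_pos.2 y23)).le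
  refine lt_of_mul_lt_mul_left (a := a * -b * -c) ?_ (mul_pos (mul_pos ha hb') hc).le
  linarith

/-- no two crossing antipodal pairs on a one-sided chain -/
lemma lemAb {a b c a' b' c' h x1 y1 z1 x2 y2 z2 x3 y3 z3 x4 y4 z4 : ℝ} (hz1 : 0 < z1)
    (z13 : z1 < z3) (z34 : z3 < z4) (hz4 : z4 < h) (z12 : z1 < z2) (z24 : z2 < z4)
    (hx1 : 0 < x1) (x13 : x1 < x3) (x34 : x3 < x4) (x12 : x1 < x2) (x24 : x2 < x4)
    (hy4 : 0 < y4) (y34 : y4 < y3) (y13 : y3 < y1) (y24 : y4 < y2) (y12 : y2 < y1)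
    (s1 : 0 < (y3 - y4) * (z3 - z1) - (z4 - z3) * (y1 - y3))
    (s2 : 0 < (x2 - x1) * (z4 - z2) - (z2 - z1) * (x4 - x2))
    (s3 : 0 < (x2 - x1) * (z3 - z1) - (z2 - z1) * (x3 - x1))
    (s4 : 0 < (y3 - y4) * (z4 - z2) - (z4 - z3) * (y2 - y4))
    (m1 : 0 < a * x3 + b * y3 + c * z3) (m2 : c * h < a * x3 + b * y3 + c * z3)
    (m3 : a * x4 + b * y4 + c * z4 < a * x3 + b * y3 + c * z3)
    (n1 : a * x1 + b * y1 + c * z1 < 0) (n2 : a * x1 + b * y1 + c * z1 < c * h)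
    (m1' : 0 < a' * x4 + b' * y4 + c' * z4) (m2' : c' * h < a' * x4 + b' * y4 + c' * z4)
    (n1' : a' * x2 + b' * y2 + c' * z2 < 0) (n2' : a' * x2 + b' * y2 + c' * z2 < c' * h)
    (n3' : a' * x2 + b' * y2 + c' * z2 < a' * x1 + b' * y1 + c' * z1) : False := by
  have e1 := lemE hz1 z13 z34 hz4 hx1 x13 x34 hy4 y34 y13 s1 m1 m2 m3 n1 n2
  have e2 := lemE (a := -b') (b := -a') (c := c') (h := h) (x1 := y4) (y1 := x4) (z1 := h - z4)
    (x2 := y2) (y2 := x2) (z2 := h - z2) (x3 := y1) (y3 := x1) (z3 := h - z1)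
    (by linarith) (by linarith) (by linarith) (by linarith) hy4 y24 y12 hx1 x12 x24
    (by linarith) (by linarith) (by linarith) (by linarith) (by linarith) (by linarith)
  have hh : 0 < h := by linarith
  have p1 := mul_lt_mul'' e1 e2 (mul_pos (mul_pos hx1 hh) (sub_pos.2 y34)).le
    (mul_pos (mul_pos hy4 hh) (sub_pos.2 x12)).le
  have p2 := mul_lt_mul'' (sub_pos.1 s3) (sub_pos.1 s4)
    (mul_pos (sub_pos.2 z12) (sub_pos.2 x13)).le (mul_pos (sub_pos.2 z34) (sub_pos.2 y24)).le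
  have p3 : (z3 - z1) * (z4 - z2) < h * h :=
    mul_lt_mul'' (by linarith) (by linarith) (by linarith) (by linarith)
  have p4 := mul_lt_mul_of_pos_left p2 (mul_pos hx1 hy4)
  have p5 := mul_lt_mul_of_pos_left p3 (mul_pos (mul_pos hx1 hy4)
    (mul_pos (sub_pos.2 x12) (sub_pos.2 y34)))
  linarith

/-- no low antipodal pair across a two-sided chain -/
lemma lemB {a b c h x1 y1 z1 x2 y2 z2 x3 y3 z3 x4 y4 z4 : ℝ} (hz1 : 0 < z1) (z12 : z1 < z2)
    (hz2 : z2 < h) (hz3 : 0 < z3) (z34 : z3 < z4) (hz3' : z3 < h) (hy1 : 0 < y1) (hy3 : 0 < y3)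
    (hx1 : 0 < x1) (hx3 : x3 < 0) (x34 : x4 < x3) (x12 : x1 < x2) (y34 : y4 < y3) (y32 : y2 < y3)
    (s1 : 0 < (y1 - y2) * (z4 - z3) - (z2 - z1) * (y3 - y4))
    (s2 : 0 < y2 * (z2 - z1) - (h - z2) * (y1 - y2))
    (s3 : 0 < (x2 - x1) * (h - z3) - (z2 - z1) * -x3)
    (s4 : 0 < (x3 - x4) * (h - z2) - (z4 - z3) * x2)
    (s5 : 0 < x2 * (z2 - z1) - z2 * (x2 - x1))
    (m1 : 0 < a * x1 + b * y1 + c * z1) (m2 : c * h < a * x1 + b * y1 + c * z1)
    (m3 : a * x2 + b * y2 + c * z2 < a * x1 + b * y1 + c * z1)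
    (n1 : a * x3 + b * y3 + c * z3 < 0) (n2 : a * x3 + b * y3 + c * z3 < c * h)
    (n3 : a * x3 + b * y3 + c * z3 < a * x4 + b * y4 + c * z4) : False := by
  have d12 := sub_pos.2 z12
  have d34 := sub_pos.2 z34
  have dh2 := sub_pos.2 hz2
  rcases lt_or_ge b 0 with hb | hb
  · have hb' := neg_pos.2 hb
    have k2 : 0 < a * x1 + b * y1 := by
      rcases le_total 0 c with hc | hc
      · nlinarith [mul_nonneg hc (by linarith : (0 : ℝ) ≤ h - z1)]
      · nlinarith [mul_nonneg (neg_nonneg.2 hc) hz1.le]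
    have ha : 0 < a := by
      by_contra ha
      push Not at ha
      nlinarith [mul_nonneg (neg_nonneg.2 ha) hx1.le, mul_pos hb' hy1]
    have k3 : -b * (y1 - y2) < -c * (z2 - z1) := by nlinarith [mul_pos ha (sub_pos.2 x12)]
    have k4 : -c * (z4 - z3) < -b * (y3 - y4) := by nlinarith [mul_pos ha (sub_pos.2 x34)]
    nlinarith [mul_lt_mul_of_pos_right k3 d34, mul_lt_mul_of_pos_right k4 d12, mul_pos hb' s1]
  · have k1 : a * x3 + b * y3 < 0 := by
      rcases le_total 0 c with hc | hc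
      · nlinarith [mul_nonneg hc hz3.le]
      · nlinarith [mul_nonneg (neg_nonneg.2 hc) (by linarith : (0 : ℝ) ≤ h - z3)]
    have ha : 0 < a := by
      by_contra ha
      push Not at ha
      nlinarith [mul_nonneg (neg_nonneg.2 ha) (neg_nonneg.2 hx3.le), mul_nonneg hb hy3.le]
    have k3 : a * (x3 - x4) < c * (z4 - z3) := by nlinarith [mul_nonneg hb (sub_pos.2 y34).le]
    have hc : 0 < c := by
      by_contra hc
      push Not at hc
      nlinarith [mul_pos ha (sub_pos.2 x34), mul_nonneg (neg_nonneg.2 hc) d34.le]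
    have k4 : a * (x2 - x1) + c * (z2 - z1) < b * (y1 - y2) := by linarith
    have k5 : (a * (x2 - x1) + c * (z2 - z1)) * (h - z2) < b * y3 * (z2 - z1) := by
      nlinarith [mul_lt_mul_of_pos_right k4 dh2, mul_nonneg hb s2.le,
        mul_nonneg (mul_nonneg hb (sub_pos.2 y32).le) d12.le]
    have k6 : a * x2 < c * (h - z2) := by
      refine lt_of_mul_lt_mul_right ?_ d34.le
      nlinarith [mul_lt_mul_of_pos_right k3 dh2, mul_pos ha s4]
    have k7 : b * y3 * (z2 - z1) < a * -x3 * (z2 - z1) := by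
      refine mul_lt_mul_of_pos_right ?_ d12
      nlinarith [mul_pos hc hz3]
    nlinarith [mul_pos ha s3, mul_pos ha s5, mul_lt_mul_of_pos_right k6 d12,
      mul_pos (mul_pos ha (sub_pos.2 x12)) hz3]

end Pool.Agent.P.MP_61d55c_co.Ex
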