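import Mathlib
import Pool.Agent.P.MP_61d55c_co.Ex.Chi
import Pool.Agent.P.MP_61d55c_co.Ex.Lem

/-! Validity of the given clauses. -/

set_option autoImplicit false

namespace Pool.Agent.P.MP_61d55c_co.Ex

open Matrix

/-- `a` and `b` are strictly antipodal among the first `n` points -/
def Ap (n : ℕ) (p : ℕ → W) (a b : ℕ) : Prop :=
  ∃ u : W, (∀ k < n, k ≠ a → u ⬝ᵥ p k < u ⬝ᵥ p a) ∧ ∀ k < n, k ≠ b → u ⬝ᵥ p b < u ⬝ᵥ p k

/-- edge test -/
def eg (n GM a b : ℕ) : Bool :=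
  Nat.blt a n && Nat.blt b n && Nat.beq (Nat.land (Nat.shiftRight GM (Nat.add (Nat.mul 16 a) b)) 1) 1

/-- all edges are strictly antipodal pairs -/
def HG (n GM : ℕ) (p : ℕ → W) : Prop := ∀ a b, eg n GM a b = true → Ap n p a b

lemma dot3' (a b : W) : a ⬝ᵥ b = a 0 * b 0 + a 1 * b 1 + a 2 * b 2 := by
  simp [dotProduct, Fin.sum_univ_three]

/-- a difference on which the functional of the pair `a b` is positive -/
def inS (n a b x y : ℕ) : Bool :=
  (Nat.beq x a && Nat.blt y n && !Nat.beq y a) || (Nat.beq y b && Nat.blt x n && !Nat.beq x b)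

lemma beq_false {a b : ℕ} : (!Nat.beq a b) = true ↔ a ≠ b := by
  rw [Bool.not_eq_true', ← Bool.not_eq_true, Nat.beq_eq]

lemma inS_sound {n a b x y : ℕ} {p : ℕ → W} {u : W}
    (h1 : ∀ k < n, k ≠ a → u ⬝ᵥ p k < u ⬝ᵥ p a) (h2 : ∀ k < n, k ≠ b → u ⬝ᵥ p b < u ⬝ᵥ p k)
    (h : inS n a b x y = true) : 0 < u ⬝ᵥ p x - u ⬝ᵥ p y := by
  simp only [inS, Bool.or_eq_true, Bool.and_eq_true, Nat.beq_eq, Nat.blt_eq, beq_false] at h
  rcases h with ⟨⟨rfl, q1⟩, q2⟩ | ⟨⟨rfl, q1⟩, q2⟩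
  · exact sub_pos.2 (h1 _ q1 q2)
  · exact sub_pos.2 (h2 _ q1 q2)

/-- linear relation -/
noncomputable def okL (VD M r a b c d i j k : ℕ) (s : Bool) : Bool :=
  Nat.ble 3 (Nat.land r 127) && cnd VD M r 0 s a b c d i j && cnd VD M r 1 s a b c d j k &&
    cnd VD M r 2 s a b c d k i

/-- no positive circuit among the differences of an antipodal pair -/
noncomputable def okA (n GM VD M r a b x1 y1 x2 y2 x3 y3 x4 y4 : ℕ) (s : Bool) : Bool :=
  Nat.ble 4 (Nat.land r 127) && eg n GM a b && inS n a b x1 y1 && inS n a b x2 y2 &&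
    inS n a b x3 y3 && inS n a b x4 y4 &&
    cnd VD M r 0 s x2 y2 x3 y3 x4 y4 && cnd VD M r 1 (!s) x1 y1 x3 y3 x4 y4 &&
    cnd VD M r 2 s x1 y1 x2 y2 x4 y4 && cnd VD M r 3 (!s) x1 y1 x2 y2 x3 y3

/-- one term of a three-term relation -/
noncomputable def tm (VD M r i j : ℕ) (s t : Bool) (a a' b b' c c' d d' e e' : ℕ) : Bool :=
  cond (Nat.ble 2 (lit r i)) (cnd VD M r i s a a' b b' c c' && cnd VD M r j t a a' d d' e e')
    (zchk a a' b b' c c' || zchk a a' d d' e e')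

/-- three-term relation -/
noncomputable def okG (VD M r a a' b b' c c' d d' e e' : ℕ) (q s1 s2 s3 : Bool) : Bool :=
  Nat.ble 6 (Nat.land r 127) &&
    (Nat.ble 2 (lit r 0) || Nat.ble 2 (lit r 2) || Nat.ble 2 (lit r 4)) &&
    tm VD M r 0 1 s1 (xor s1 q) a a' b b' c c' d d' e e' &&
    tm VD M r 2 3 s2 (xor s2 (!q)) a a' b b' d d' c c' e e' &&
    tm VD M r 4 5 s3 (xor s3 q) a a' b b' e e' c c' d d'

section

variable {p : ℕ → W} {VD nv r : ℕ} (hN : NZ p VD nv)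
  (hF : ∀ i < Nat.land r 127, ¬ TT p VD (lit r i))

include hN hF

lemma okL_sound {a b c d i j k : ℕ} {s : Bool} :
    okL VD (2 * nv + 1) r a b c d i j k s ≠ true := fun h => by
  simp only [okL, Bool.and_eq_true, Nat.ble_eq] at h
  obtain ⟨⟨⟨h0, h1⟩, h2⟩, h3⟩ := h
  have e1 := cnd_sound hN h1 (hF _ (by omega))
  have e2 := cnd_sound hN h2 (hF _ (by omega))
  have e3 := cnd_sound hN h3 (hF _ (by omega))
  have : sg s * dt p a b c d i j + sg s * dt p a b c d j k + sg s * dt p a b c d k i = 0 := by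
    simp only [dt, det3, Pi.sub_apply]; ring
  linarith

lemma okA_sound {n GM a b x1 y1 x2 y2 x3 y3 x4 y4 : ℕ} {s : Bool} (hG : HG n GM p) :
    okA n GM VD (2 * nv + 1) r a b x1 y1 x2 y2 x3 y3 x4 y4 s ≠ true := fun h => by
  simp only [okA, Bool.and_eq_true, Nat.ble_eq] at h
  obtain ⟨⟨⟨⟨⟨⟨⟨⟨⟨h0, hab⟩, g1⟩, g2⟩, g3⟩, g4⟩, h1⟩, h2⟩, h3⟩, h4⟩ := h
  obtain ⟨u, u1, u2⟩ := hG a b hab
  have e1 := mul_pos (cnd_sound hN h1 (hF _ (by omega))) (inS_sound u1 u2 g1)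
  have e2 := mul_pos (cnd_sound hN h2 (hF _ (by omega))) (inS_sound u1 u2 g2)
  have e3 := mul_pos (cnd_sound hN h3 (hF _ (by omega))) (inS_sound u1 u2 g3)
  have e4 := mul_pos (cnd_sound hN h4 (hF _ (by omega))) (inS_sound u1 u2 g4)
  rw [sg_not] at e2 e4
  have : sg s * dt p x2 y2 x3 y3 x4 y4 * (u ⬝ᵥ p x1 - u ⬝ᵥ p y1) +
      -sg s * dt p x1 y1 x3 y3 x4 y4 * (u ⬝ᵥ p x2 - u ⬝ᵥ p y2) +
      sg s * dt p x1 y1 x2 y2 x4 y4 * (u ⬝ᵥ p x3 - u ⬝ᵥ p y3) +
      -sg s * dt p x1 y1 x2 y2 x3 y3 * (u ⬝ᵥ p x4 - u ⬝ᵥ p y4) = 0 := by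
    simp only [dt, det3, Pi.sub_apply, dot3']; ring
  linarith

lemma tm_sound {i j : ℕ} (hi : i < Nat.land r 127) (hj : j < Nat.land r 127) {s q : Bool}
    {a a' b b' c c' d d' e e' : ℕ}
    (h : tm VD (2 * nv + 1) r i j s (xor s q) a a' b b' c c' d d' e e' = true) :
    sg q * (dt p a a' b b' c c' * dt p a a' d d' e e') ≤ 0 ∧
      (2 ≤ lit r i → sg q * (dt p a a' b b' c c' * dt p a a' d d' e e') < 0) := by
  unfold tm at h
  revert h
  cases hb : Nat.ble 2 (lit r i)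
  · intro h
    simp only [cond_false, Bool.or_eq_true] at h
    refine ⟨?_, fun h2 => ?_⟩
    · rcases h with h | h <;> simp [zchk_sound p h]
    · rw [← Nat.ble_eq, hb] at h2; exact Bool.noConfusion h2
  · intro h
    simp only [cond_true, Bool.and_eq_true] at h
    have e0 := mul_pos (cnd_sound hN h.1 (hF _ hi)) (cnd_sound hN h.2 (hF _ hj))
    rw [sg_xor] at e0
    have : sg q * (dt p a a' b b' c c' * dt p a a' d d' e e') < 0 := by
      linear_combination e0 - (sg q * (dt p a a' b b' c c' * dt p a a' d d' e e')) * sg_sq s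
    exact ⟨this.le, fun _ => this⟩

lemma okG_sound {a a' b b' c c' d d' e e' : ℕ} {q s1 s2 s3 : Bool} :
    okG VD (2 * nv + 1) r a a' b b' c c' d d' e e' q s1 s2 s3 ≠ true := fun h => by
  simp only [okG, Bool.and_eq_true, Bool.or_eq_true, Nat.ble_eq] at h
  obtain ⟨⟨⟨⟨h0, h4⟩, h1⟩, h2⟩, h3⟩ := h
  obtain ⟨e1, f1⟩ := tm_sound hN hF (by omega) (by omega) h1
  obtain ⟨e2, f2⟩ := tm_sound hN hF (by omega) (by omega) h2
  obtain ⟨e3, f3⟩ := tm_sound hN hF (by omega) (by omega) h3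
  rw [sg_not] at e2 f2
  have : sg q * (dt p a a' b b' c c' * dt p a a' d d' e e') +
      -sg q * (dt p a a' b b' d d' * dt p a a' c c' e e') +
      sg q * (dt p a a' b b' e e' * dt p a a' c c' d d') = 0 := by
    simp only [dt, det3, Pi.sub_apply]; ring
  rcases h4 with (h | h) | h
  · linarith [f1 h]
  · linarith [f2 h]
  · linarith [f3 h]

end

lemma frame (p : ℕ → W) (u u' v v' : ℕ) (sz sx sy : Bool) :
    ∃ X Y Z : ℕ → ℝ, X u = 0 ∧ Y u = 0 ∧ Z u = 0 ∧ X v = 0 ∧ Y v = 0 ∧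
      (∀ i j, sg sx * dt p i j v' v v u = X i - X j) ∧
      (∀ i j, sg sy * dt p u' u i j v u = Y i - Y j) ∧
      (∀ i j, sg sz * dt p u' u v' v i j = Z i - Z j) ∧
      (∀ i j k l, Z v * (sg sx * dt p i j v' v k l) =
        (X i - X j) * (Z k - Z l) - (Z i - Z j) * (X k - X l)) ∧
      (∀ i j k l, Z v * (sg sy * dt p u' u i j k l) =
        (Y i - Y j) * (Z k - Z l) - (Z i - Z j) * (Y k - Y l)) ∧
      ∀ f : W, ∃ a b c : ℝ, ∀ i j, Z v * (f ⬝ᵥ p i - f ⬝ᵥ p j) =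
        (a * X i + b * Y i + c * Z i) - (a * X j + b * Y j + c * Z j) := by
  refine ⟨fun i => sg sx * dt p i u v' v v u, fun i => sg sy * dt p u' u i u v u,
    fun i => sg sz * dt p u' u v' v i u, ?_, ?_, ?_, ?_, ?_, fun i j => ?_, fun i j => ?_,
    fun i j => ?_, fun i j k l => ?_, fun i j k l => ?_, fun f =>
      ⟨sg sz * sg sx * (f ⬝ᵥ p u' - f ⬝ᵥ p u), sg sz * sg sy * (f ⬝ᵥ p v' - f ⬝ᵥ p v),
        f ⬝ᵥ p v - f ⬝ᵥ p u, fun i j => ?_⟩⟩
  iterate 10 simp only [dt, det3, Pi.sub_apply]; ring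
  cases sx <;> cases sy <;> simp only [dt, det3, Pi.sub_apply, dot3', sg, cond_true, cond_false] <;>
    ring

/-- the six indices are below `n` and distinct where needed -/
def dis (n u v a b c d : ℕ) : Bool :=
  Nat.blt u n && Nat.blt v n && Nat.blt a n && Nat.blt b n && Nat.blt c n && Nat.blt d n &&
  !Nat.beq u a && !Nat.beq u b && !Nat.beq u c && !Nat.beq u d &&
  !Nat.beq v a && !Nat.beq v b && !Nat.beq v c && !Nat.beq v d &&
  !Nat.beq a b && !Nat.beq a c && !Nat.beq a d && !Nat.beq b c && !Nat.beq b d && !Nat.beq c d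

/-- the clause of `lemA1` -/
noncomputable def okM1 (n GM VD M r u u' v v' a b c d : ℕ) (sz sx sy : Bool) : Bool :=
  Nat.ble 14 (Nat.land r 127) && dis n u v a b c d && eg n GM c b &&
  cnd VD M r 0 sz u' u v' v v u && cnd VD M r 1 sz u' u v' v b u && cnd VD M r 2 sz u' u v' v v c &&
  cnd VD M r 3 sz u' u v' v b a && cnd VD M r 4 sz u' u v' v c b && cnd VD M r 5 sz u' u v' v d c &&
  cnd VD M r 6 sx b u v' v v u && cnd VD M r 7 sy u' u c u v u &&
  cnd VD M r 8 sx c b v' v v u && cnd VD M r 9 sx d c v' v v u &&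
  cnd VD M r 10 sy u' u a b v u && cnd VD M r 11 sy u' u b c v u &&
  cnd VD M r 12 sx b a v' v c b && cnd VD M r 13 sy u' u c d c b

/-- the clause of `lemAb` -/
noncomputable def okM2 (n GM VD M r u u' v v' a b c d : ℕ) (sz sx sy : Bool) : Bool :=
  Nat.ble 21 (Nat.land r 127) && dis n u v a b c d && eg n GM c a && eg n GM d b &&
  cnd VD M r 0 sz u' u v' v v u && cnd VD M r 1 sz u' u v' v a u && cnd VD M r 2 sz u' u v' v c a &&
  cnd VD M r 3 sz u' u v' v d c && cnd VD M r 4 sz u' u v' v v d && cnd VD M r 5 sz u' u v' v b a &&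
  cnd VD M r 6 sz u' u v' v d b &&
  cnd VD M r 7 sx a u v' v v u && cnd VD M r 8 sx c a v' v v u && cnd VD M r 9 sx d c v' v v u &&
  cnd VD M r 10 sx b a v' v v u && cnd VD M r 11 sx d b v' v v u &&
  cnd VD M r 12 sy u' u d u v u && cnd VD M r 13 sy u' u c d v u &&
  cnd VD M r 14 sy u' u a c v u && cnd VD M r 15 sy u' u b d v u &&
  cnd VD M r 16 sy u' u a b v u &&
  cnd VD M r 17 sy u' u c d c a && cnd VD M r 18 sx b a v' v d b &&
  cnd VD M r 19 sx b a v' v c a && cnd VD M r 20 sy u' u c d d b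

/-- the clause of `lemB` -/
noncomputable def okM3 (n GM VD M r u u' v v' a b c d : ℕ) (sz sx sy : Bool) : Bool :=
  Nat.ble 20 (Nat.land r 127) && dis n u v a b c d && eg n GM a c &&
  cnd VD M r 0 sz u' u v' v v u && cnd VD M r 1 sz u' u v' v a u && cnd VD M r 2 sz u' u v' v b a &&
  cnd VD M r 3 sz u' u v' v v b && cnd VD M r 4 sz u' u v' v c u && cnd VD M r 5 sz u' u v' v d c &&
  cnd VD M r 6 sz u' u v' v v c &&
  cnd VD M r 7 sy u' u a u v u && cnd VD M r 8 sy u' u c u v u &&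
  cnd VD M r 9 sx a u v' v v u && cnd VD M r 10 sx u c v' v v u &&
  cnd VD M r 11 sx c d v' v v u && cnd VD M r 12 sx b a v' v v u &&
  cnd VD M r 13 sy u' u c d v u && cnd VD M r 14 sy u' u c b v u &&
  cnd VD M r 15 sy u' u a b d c && cnd VD M r 16 sy u' u b v b a &&
  cnd VD M r 17 sx b a v' v v c && cnd VD M r 18 sx c d v' v v b && cnd VD M r 19 sx b u v' v b a

section

variable {p : ℕ → W} {VD nv r : ℕ} (hN : NZ p VD nv)
  (hF : ∀ i < Nat.land r 127, ¬ TT p VD (lit r i)) {n GM u u' v v' a b c d : ℕ} {sz sx sy : Bool}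
  (hG : HG n GM p)

include hN hF hG

lemma okM1_sound : okM1 n GM VD (2 * nv + 1) r u u' v v' a b c d sz sx sy ≠ true := fun h => by
  simp only [okM1, dis, Bool.and_eq_true, Nat.ble_eq, Nat.blt_eq, beq_false, and_assoc] at h
  obtain ⟨h, lu, lv, la, lb, lc, ld, ua, ub, uc, ud, va, vb, vc, vd, ab, ac, ad, bc, bd, cd, g,
    h0, h1, h2, h3, h4, h5, h6, h7, h8, h9, h10, h11, h12, h13⟩ := h
  obtain ⟨X, Y, Z, xu, yu, zu, xv, yv, ex, ey, ez, exz, eyz, ef⟩ := frame p u u' v v' sz sx sy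
  have C := fun (i : ℕ) (hi : i < 14) {s : Bool} {a b c d e f : ℕ}
    (h' : cnd VD (2 * nv + 1) r i s a b c d e f = true) => cnd_sound hN h' (hF i (by omega))
  have z0 := ez _ _ ▸ C _ (by omega) h0
  rw [zu, sub_zero] at z0
  obtain ⟨f, f1, f2⟩ := hG _ _ g
  obtain ⟨α, β, γ, e⟩ := ef f
  have K := fun i j (h' : f ⬝ᵥ p j < f ⬝ᵥ p i) => e i j ▸ mul_pos z0 (sub_pos.2 h')
  have s1 := exz _ _ _ _ ▸ mul_pos z0 (C _ (by omega) h12)
  have s2 := eyz _ _ _ _ ▸ mul_pos z0 (C _ (by omega) h13)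
  refine lemA1 (a := α) (b := β) (c := γ) (h := Z v) (x0 := X a) (y0 := Y a) (z0 := Z a)
    (x1 := X b) (y1 := Y b) (z1 := Z b) (x2 := X c) (y2 := Y c) (z2 := Z c)
    (x3 := X d) (y3 := Y d) (z3 := Z d) (by linarith [ez _ _ ▸ C _ (by omega) h1])
    (by linarith [ez _ _ ▸ C _ (by omega) h2]) (by linarith [ez _ _ ▸ C _ (by omega) h3])
    (by linarith [ez _ _ ▸ C _ (by omega) h4]) (by linarith [ez _ _ ▸ C _ (by omega) h5])
    (by linarith [ex _ _ ▸ C _ (by omega) h6]) (by linarith [ey _ _ ▸ C _ (by omega) h7])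
    (by linarith [ex _ _ ▸ C _ (by omega) h8]) (by linarith [ex _ _ ▸ C _ (by omega) h9])
    (by linarith [ey _ _ ▸ C _ (by omega) h10]) (by linarith [ey _ _ ▸ C _ (by omega) h11])
    (by linarith) (by linarith) ?_ ?_ (by linarith [K _ _ (f1 d ld cd.symm)]) ?_ ?_
    (by linarith [K _ _ (f2 a la ab)])
  · have := K _ _ (f1 u lu uc); rw [xu, yu, zu] at this; linarith
  · have := K _ _ (f1 v lv vc); rw [xv, yv] at this; linarith
  · have := K _ _ (f2 u lu ub); rw [xu, yu, zu] at this; linarith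
  · have := K _ _ (f2 v lv vb); rw [xv, yv] at this; linarith

lemma okM2_sound : okM2 n GM VD (2 * nv + 1) r u u' v v' a b c d sz sx sy ≠ true := fun h => by
  simp only [okM2, dis, Bool.and_eq_true, Nat.ble_eq, Nat.blt_eq, beq_false, and_assoc] at h
  obtain ⟨h, lu, lv, la, lb, lc, ld, ua, ub, uc, ud, va, vb, vc, vd, ab, ac, ad, bc, bd, cd, g, g',
    h0, h1, h2, h3, h4, h5, h6, h7, h8, h9, h10, h11, h12, h13, h14, h15, h16, h17, h18, h19,
    h20⟩ := h
  obtain ⟨X, Y, Z, xu, yu, zu, xv, yv, ex, ey, ez, exz, eyz, ef⟩ := frame p u u' v v' sz sx sy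
  have C := fun (i : ℕ) (hi : i < 21) {s : Bool} {a b c d e f : ℕ}
    (h' : cnd VD (2 * nv + 1) r i s a b c d e f = true) => cnd_sound hN h' (hF i (by omega))
  have z0 := ez _ _ ▸ C _ (by omega) h0
  rw [zu, sub_zero] at z0
  obtain ⟨f, f1, f2⟩ := hG _ _ g
  obtain ⟨α, β, γ, e⟩ := ef f
  have K := fun i j (h' : f ⬝ᵥ p j < f ⬝ᵥ p i) => e i j ▸ mul_pos z0 (sub_pos.2 h')
  obtain ⟨f', f3, f4⟩ := hG _ _ g'
  obtain ⟨α', β', γ', e'⟩ := ef f'
  have K' := fun i j (h' : f' ⬝ᵥ p j < f' ⬝ᵥ p i) => e' i j ▸ mul_pos z0 (sub_pos.2 h')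
  have s1 := eyz _ _ _ _ ▸ mul_pos z0 (C _ (by omega) h17)
  have s2 := exz _ _ _ _ ▸ mul_pos z0 (C _ (by omega) h18)
  have s3 := exz _ _ _ _ ▸ mul_pos z0 (C _ (by omega) h19)
  have s4 := eyz _ _ _ _ ▸ mul_pos z0 (C _ (by omega) h20)
  refine lemAb (a := α) (b := β) (c := γ) (a' := α') (b' := β') (c' := γ') (h := Z v)
    (x1 := X a) (y1 := Y a) (z1 := Z a) (x2 := X b) (y2 := Y b) (z2 := Z b)
    (x3 := X c) (y3 := Y c) (z3 := Z c) (x4 := X d) (y4 := Y d) (z4 := Z d)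
    (by linarith [ez _ _ ▸ C _ (by omega) h1])
    (by linarith [ez _ _ ▸ C _ (by omega) h2]) (by linarith [ez _ _ ▸ C _ (by omega) h3])
    (by linarith [ez _ _ ▸ C _ (by omega) h4]) (by linarith [ez _ _ ▸ C _ (by omega) h5])
    (by linarith [ez _ _ ▸ C _ (by omega) h6]) (by linarith [ex _ _ ▸ C _ (by omega) h7])
    (by linarith [ex _ _ ▸ C _ (by omega) h8]) (by linarith [ex _ _ ▸ C _ (by omega) h9])
    (by linarith [ex _ _ ▸ C _ (by omega) h10]) (by linarith [ex _ _ ▸ C _ (by omega) h11])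
    (by linarith [ey _ _ ▸ C _ (by omega) h12]) (by linarith [ey _ _ ▸ C _ (by omega) h13])
    (by linarith [ey _ _ ▸ C _ (by omega) h14]) (by linarith [ey _ _ ▸ C _ (by omega) h15])
    (by linarith [ey _ _ ▸ C _ (by omega) h16])
    (by linarith) (by linarith) (by linarith) (by linarith) ?_ ?_
    (by linarith [K _ _ (f1 d ld cd.symm)]) ?_ ?_ ?_ ?_ ?_ ?_ (by linarith [K' _ _ (f4 a la ab)])
  · have := K _ _ (f1 u lu uc); rw [xu, yu, zu] at this; linarith
  · have := K _ _ (f1 v lv vc); rw [xv, yv] at this; linarith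
  · have := K _ _ (f2 u lu ua); rw [xu, yu, zu] at this; linarith
  · have := K _ _ (f2 v lv va); rw [xv, yv] at this; linarith
  · have := K' _ _ (f3 u lu ud); rw [xu, yu, zu] at this; linarith
  · have := K' _ _ (f3 v lv vd); rw [xv, yv] at this; linarith
  · have := K' _ _ (f4 u lu ub); rw [xu, yu, zu] at this; linarith
  · have := K' _ _ (f4 v lv vb); rw [xv, yv] at this; linarith

lemma okM3_sound : okM3 n GM VD (2 * nv + 1) r u u' v v' a b c d sz sx sy ≠ true := fun h => by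
  simp only [okM3, dis, Bool.and_eq_true, Nat.ble_eq, Nat.blt_eq, beq_false, and_assoc] at h
  obtain ⟨h, lu, lv, la, lb, lc, ld, ua, ub, uc, ud, va, vb, vc, vd, ab, ac, ad, bc, bd, cd, g,
    h0, h1, h2, h3, h4, h5, h6, h7, h8, h9, h10, h11, h12, h13, h14, h15, h16, h17, h18,
    h19⟩ := h
  obtain ⟨X, Y, Z, xu, yu, zu, xv, yv, ex, ey, ez, exz, eyz, ef⟩ := frame p u u' v v' sz sx sy
  have C := fun (i : ℕ) (hi : i < 20) {s : Bool} {a b c d e f : ℕ}
    (h' : cnd VD (2 * nv + 1) r i s a b c d e f = true) => cnd_sound hN h' (hF i (by omega))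
  have z0 := ez _ _ ▸ C _ (by omega) h0
  rw [zu, sub_zero] at z0
  obtain ⟨f, f1, f2⟩ := hG _ _ g
  obtain ⟨α, β, γ, e⟩ := ef f
  have K := fun i j (h' : f ⬝ᵥ p j < f ⬝ᵥ p i) => e i j ▸ mul_pos z0 (sub_pos.2 h')
  have s1 := eyz _ _ _ _ ▸ mul_pos z0 (C _ (by omega) h15)
  have s2 := eyz _ _ _ _ ▸ mul_pos z0 (C _ (by omega) h16)
  have s3 := exz _ _ _ _ ▸ mul_pos z0 (C _ (by omega) h17)
  have s4 := exz _ _ _ _ ▸ mul_pos z0 (C _ (by omega) h18)
  have s5 := exz _ _ _ _ ▸ mul_pos z0 (C _ (by omega) h19)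
  rw [yv] at s2
  rw [xv] at s3 s4
  rw [xu, zu] at s5
  refine lemB (a := α) (b := β) (c := γ) (h := Z v)
    (x1 := X a) (y1 := Y a) (z1 := Z a) (x2 := X b) (y2 := Y b) (z2 := Z b)
    (x3 := X c) (y3 := Y c) (z3 := Z c) (x4 := X d) (y4 := Y d) (z4 := Z d)
    (by linarith [ez _ _ ▸ C _ (by omega) h1])
    (by linarith [ez _ _ ▸ C _ (by omega) h2]) (by linarith [ez _ _ ▸ C _ (by omega) h3])
    (by linarith [ez _ _ ▸ C _ (by omega) h4]) (by linarith [ez _ _ ▸ C _ (by omega) h5])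
    (by linarith [ez _ _ ▸ C _ (by omega) h6]) (by linarith [ey _ _ ▸ C _ (by omega) h7])
    (by linarith [ey _ _ ▸ C _ (by omega) h8]) (by linarith [ex _ _ ▸ C _ (by omega) h9])
    (by linarith [ex _ _ ▸ C _ (by omega) h10]) (by linarith [ex _ _ ▸ C _ (by omega) h11])
    (by linarith [ex _ _ ▸ C _ (by omega) h12]) (by linarith [ey _ _ ▸ C _ (by omega) h13])
    (by linarith [ey _ _ ▸ C _ (by omega) h14])
    (by linarith) (by linarith) (by linarith) (by linarith) (by linarith) ?_ ?_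
    (by linarith [K _ _ (f1 b lb ab.symm)]) ?_ ?_ (by linarith [K _ _ (f2 d ld cd.symm)])
  · have := K _ _ (f1 u lu ua); rw [xu, yu, zu] at this; linarith
  · have := K _ _ (f1 v lv va); rw [xv, yv] at this; linarith
  · have := K _ _ (f2 u lu uc); rw [xu, yu, zu] at this; linarith
  · have := K _ _ (f2 v lv vc); rw [xv, yv] at this; linarith

end

/-- a bit stored in four bits -/
def bt (w i : ℕ) : Bool := Nat.beq (nb w i) 1

/-- validity test for a given clause -/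
noncomputable def ok (n GM VD M K r w : ℕ) : Bool :=
  force (nb w 0) fun t => force (nb w 1) fun a => force (nb w 2) fun b =>
  force (nb w 3) fun c => force (nb w 4) fun d => force (nb w 5) fun e => force (nb w 6) fun f =>
  force (nb w 7) fun g => force (nb w 8) fun h => force (nb w 9) fun i => force (nb w 10) fun j =>
  cond (Nat.beq t 0) (okA n GM VD M r a b c d e f g h i j (bt w 11))
  (cond (Nat.beq t 1) (okG VD M r a b c d e f g h i j (bt w 11) (bt w 12) (bt w 13) (bt w 14))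
  (cond (Nat.beq t 2) (okL VD M r a b c d e f g (bt w 8))
  (cond (Nat.beq t 3) (Nat.ble 1 (Nat.land r 127) && Nat.ble 1 a && Nat.ble a K &&
    Nat.beq (lit r 0) (Nat.mul 2 a))
  (cond (Nat.beq t 4) (okM1 n GM VD M r a b c d e f g h (bt w 9) (bt w 10) (bt w 11))
  (cond (Nat.beq t 5) (okM2 n GM VD M r a b c d e f g h (bt w 9) (bt w 10) (bt w 11))
  (okM3 n GM VD M r a b c d e f g h (bt w 9) (bt w 10) (bt w 11)))))))

lemma cond_elim {b x y : Bool} (h : cond b x y = true) : x = true ∨ y = true := by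
  cases b
  · exact Or.inr h
  · exact Or.inl h

lemma ok_sound {p : ℕ → W} {n GM VD nv K : ℕ} (hN : NZ p VD nv) (hG : HG n GM p)
    (hK : ∀ j, 1 ≤ j → j ≤ K → TT p VD (2 * j)) (r w : ℕ)
    (h : ok n GM VD (2 * nv + 1) K r w = true) : ∃ i < Nat.land r 127, TT p VD (lit r i) := by
  by_contra hF
  push Not at hF
  unfold ok at h
  simp only [force_eq] at h
  rcases cond_elim h with h | h
  · exact okA_sound hN hF hG h
  rcases cond_elim h with h | h
  · exact okG_sound hN hF h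
  rcases cond_elim h with h | h
  · exact okL_sound hN hF h
  rcases cond_elim h with h | h
  · simp only [Bool.and_eq_true, Nat.ble_eq, Nat.beq_eq] at h
    exact hF 0 h.1.1.1 (h.2 ▸ hK _ h.1.1.2 h.1.2)
  rcases cond_elim h with h | h
  · exact okM1_sound hN hF hG h
  rcases cond_elim h with h | h
  · exact okM2_sound hN hF hG h
  · exact okM3_sound hN hF hG h

end Pool.Agent.P.MP_61d55c_co.Ex
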