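import Mathlib
import Pool.Agent.P.MP_61d55c_co.Ex.Ok

/-! Generic position, symmetry breaking and the refutation theorem. -/

set_option autoImplicit false

namespace Pool.Agent.P.MP_61d55c_co.Ex

open Matrix Filter Topology

/-- no determinant vanishes unless it vanishes identically -/
def Gen (n : ℕ) (p : ℕ → W) : Prop :=
  ∀ a < n, ∀ b < n, ∀ c < n, ∀ d < n, ∀ e < n, ∀ f < n,
    (∃ r, dt r a b c d e f ≠ 0) → dt p a b c d e f ≠ 0

lemma open_all {n : ℕ} {P : ℕ → (ℕ → W) → Prop} (h : ∀ a, IsOpen {p | P a p}) :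
    IsOpen {p | ∀ a < n, P a p} := by
  have : {p | ∀ a < n, P a p} = ⋂ a ∈ Finset.range n, {p | P a p} := by
    ext p; simp
  rw [this]
  exact isOpen_biInter_finset fun a _ => h a

lemma open_imp {q : Prop} {P : (ℕ → W) → Prop} (h : IsOpen {p | P p}) :
    IsOpen {p | q → P p} := by
  by_cases hq : q
  · simpa [hq] using h
  · simp [hq]

lemma open_Ap (n a b : ℕ) : IsOpen {p | Ap n p a b} := by
  have : {p | Ap n p a b} = ⋃ u : W, ({p : ℕ → W | ∀ k < n, k ≠ a → u ⬝ᵥ p k < u ⬝ᵥ p a} ∩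
      {p | ∀ k < n, k ≠ b → u ⬝ᵥ p b < u ⬝ᵥ p k}) := by
    ext p; simp [Ap]
  rw [this]
  refine isOpen_iUnion fun u => IsOpen.inter (open_all fun k => open_imp ?_)
    (open_all fun k => open_imp ?_)
  all_goals
    simp only [dot3']
    exact isOpen_lt (by fun_prop) (by fun_prop)

lemma eg_lt {n GM a b : ℕ} (h : eg n GM a b = true) : a < n ∧ b < n := by
  simp only [eg, Bool.and_eq_true, Nat.blt_eq] at h
  exact h.1

lemma open_HG (n GM : ℕ) : IsOpen {p | HG n GM p} := by
  have : {p | HG n GM p} = {p | ∀ a < n, ∀ b < n, eg n GM a b = true → Ap n p a b} := by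
    ext p
    exact ⟨fun h a _ b _ => h a b, fun h a b e => h a (eg_lt e).1 b (eg_lt e).2 e⟩
  rw [this]
  exact open_all fun a => open_all fun b => open_imp (open_Ap n a b)

lemma dense_one {O : Set (ℕ → W)} (hO : IsOpen O) (hne : O.Nonempty) (a b c d e f : ℕ) :
    (O ∩ {p | (∃ r, dt r a b c d e f ≠ 0) → dt p a b c d e f ≠ 0}).Nonempty := by
  obtain ⟨p, hp⟩ := hne
  by_contra hn
  have hn' : ∀ q ∈ O, (∃ r, dt r a b c d e f ≠ 0) ∧ dt q a b c d e f = 0 := fun q hq => by
    by_contra h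
    exact hn ⟨q, hq, fun h1 h2 => h ⟨h1, h2⟩⟩
  obtain ⟨r, hr⟩ := (hn' p hp).1
  let g : ℝ → ℕ → W := fun t i k => p i k + t * (r i k - p i k)
  have hg : Continuous g := by fun_prop
  have h0 : g 0 = p := by ext i k; simp [g]
  have h1 : g 1 = r := by ext i k; simp [g]
  have an : AnalyticOnNhd ℝ (fun t => dt (g t) a b c d e f) Set.univ := fun x _ => by
    simp only [dt, det3, Pi.sub_apply, g]
    fun_prop
  have ev : (fun t => dt (g t) a b c d e f) =ᶠ[𝓝 0] 0 := by
    have : ∀ᶠ t in 𝓝 (0 : ℝ), g t ∈ O :=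
      hg.continuousAt.eventually (hO.mem_nhds (h0 ▸ hp))
    filter_upwards [this] with t ht using (hn' _ ht).2
  have := an.eqOn_zero_of_preconnected_of_eventuallyEq_zero isPreconnected_univ
    (Set.mem_univ 0) ev (Set.mem_univ 1)
  simp only [h1, Pi.zero_apply] at this
  exact hr this

lemma dense_all {n : ℕ} {P : ℕ → (ℕ → W) → Prop} (h : ∀ a, IsOpen {p | P a p})
    (h' : ∀ a, ∀ O : Set (ℕ → W), IsOpen O → O.Nonempty → (O ∩ {p | P a p}).Nonempty) :
    IsOpen {p | ∀ a < n, P a p} ∧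
      ∀ O : Set (ℕ → W), IsOpen O → O.Nonempty → (O ∩ {p | ∀ a < n, P a p}).Nonempty := by
  refine ⟨open_all h, fun O hO hne => ?_⟩
  induction n with
  | zero => simpa using hne
  | succ n ih =>
    obtain ⟨p, ⟨h1, h2⟩, h3⟩ := h' n _ (hO.inter (open_all h)) ih
    refine ⟨p, h1, fun a ha => ?_⟩
    rcases Nat.lt_succ_iff_lt_or_eq.1 ha with h | rfl
    · exact h2 a h
    · exact h3

lemma exists_gen {n GM : ℕ} {p : ℕ → W} (h : HG n GM p) : ∃ q, HG n GM q ∧ Gen n q := by
  have k6 := fun a b c d e => dense_all (n := n) (P := fun f p =>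
    (∃ r, dt r a b c d e f ≠ 0) → dt p a b c d e f ≠ 0) (fun f => open_imp (by
      simp only [dt, det3, Pi.sub_apply]
      exact isOpen_ne_fun (by fun_prop) (by fun_prop))) fun f O h1 h2 => dense_one h1 h2 _ _ _ _ _ _
  have k5 := fun a b c d => dense_all (n := n) (fun e => (k6 a b c d e).1) fun e => (k6 a b c d e).2
  have k4 := fun a b c => dense_all (n := n) (fun d => (k5 a b c d).1) fun d => (k5 a b c d).2
  have k3 := fun a b => dense_all (n := n) (fun c => (k4 a b c).1) fun c => (k4 a b c).2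
  have k2 := fun a => dense_all (n := n) (fun b => (k3 a b).1) fun b => (k3 a b).2
  have k1 := dense_all (n := n) (fun a => (k2 a).1) fun a => (k2 a).2
  exact k1.2 _ (open_HG n GM) ⟨p, h⟩

/-- a test on all numbers below `n` -/
noncomputable def allLT (n : ℕ) (f : ℕ → Bool) : Bool := Nat.rec true (fun i ih => f i && ih) n

lemma allLT_sound {n : ℕ} {f : ℕ → Bool} (h : allLT n f = true) {i : ℕ} (hi : i < n) :
    f i = true := by
  induction n with
  | zero => omega
  | succ n ih =>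
    have h' : (f n && allLT n f) = true := h
    rw [Bool.and_eq_true] at h'
    rcases Nat.lt_succ_iff_lt_or_eq.1 hi with h | rfl
    · exact ih h'.2 h
    · exact h'.1

/-- difference of powers -/
def dp (t a b : ℕ) : ℤ := Int.subNatNat (Nat.pow t a) (Nat.pow t b)

/-- the determinant at a test configuration -/
def dZ (a b c d e f : ℕ) : ℤ :=
  dp 2 a b * (dp 4 c d * dp 8 e f - dp 8 c d * dp 4 e f) -
    dp 4 a b * (dp 2 c d * dp 8 e f - dp 8 c d * dp 2 e f) +
    dp 8 a b * (dp 2 c d * dp 4 e f - dp 4 c d * dp 2 e f)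

lemma dZ_eq (a b c d e f : ℕ) :
    dt (fun i => ![2 ^ i, 4 ^ i, 8 ^ i]) a b c d e f = dZ a b c d e f := by
  simp only [dt, det3, dZ, dp, Int.subNatNat_eq_coe, Pi.sub_apply, cons_val_zero, cons_val_one,
    cons_val, Nat.pow_eq]
  push_cast
  ring

/-- the variable is a nonzero determinant on the first `n` points -/
noncomputable def vok (n VD v : ℕ) : Bool :=
  force (vd VD (Nat.succ v)) fun w =>
  force (nb w 0) fun a => force (nb w 1) fun b => force (nb w 2) fun c =>
  force (nb w 3) fun d => force (nb w 4) fun e => force (nb w 5) fun f =>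
  Nat.blt a n && Nat.blt b n && Nat.blt c n && Nat.blt d n && Nat.blt e n && Nat.blt f n &&
    !Nat.beq (Int.natAbs (dZ a b c d e f)) 0

lemma NZ_of {n VD nv : ℕ} (h : allLT nv (vok n VD) = true) {p : ℕ → W} (hp : Gen n p) :
    NZ p VD nv := by
  intro v h1 h2
  obtain ⟨v, rfl⟩ : ∃ k, v = k + 1 := ⟨v - 1, by omega⟩
  have := allLT_sound h (i := v) h2
  unfold vok at this
  simp only [force_eq, Bool.and_eq_true, Nat.blt_eq, beq_false, and_assoc] at this
  obtain ⟨q1, q2, q3, q4, q5, q6, q7⟩ := this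
  refine hp _ q1 _ q2 _ q3 _ q4 _ q5 _ q6 ⟨fun i => ![2 ^ i, 4 ^ i, 8 ^ i], ?_⟩
  rw [dZ_eq]
  exact_mod_cast Int.natAbs_ne_zero.1 q7

/-- the image of variable `v` under the symmetry `w` is literal `l` -/
noncomputable def img (VD M w v l : ℕ) : Bool :=
  chk VD M (nb w (nb (vd VD v) 0)) (nb w (nb (vd VD v) 1)) (nb w (nb (vd VD v) 2))
    (nb w (nb (vd VD v) 3)) (nb w (nb (vd VD v) 4)) (nb w (nb (vd VD v) 5))
    (cond (bt w 10) l (Nat.xor l 1))

/-- `w` codes a symmetry fixing variables `1, …, j` and negating variable `j + 1` -/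
noncomputable def sok (n GM VD M j w : ℕ) : Bool :=
  allLT n (fun i => Nat.blt (nb w i) n && Nat.beq (nb w (nb w i)) i) &&
  allLT n (fun a => allLT n fun b => !eg n GM a b || eg n GM (nb w a) (nb w b)) &&
  allLT j (fun i => img VD M w (i + 1) (2 * (i + 1))) &&
  img VD M w (j + 1) (Nat.xor (2 * (j + 1)) 1)

lemma dt_smul (p : ℕ → W) (π : ℕ → ℕ) (s : Bool) (a b c d e f : ℕ) :
    dt (fun i => sg s • p (π i)) a b c d e f = sg s * dt p (π a) (π b) (π c) (π d) (π e) (π f) := by
  cases s <;> simp only [dt, det3, Pi.sub_apply, Pi.smul_apply, smul_eq_mul, sg, cond_true,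
    cond_false] <;> ring

lemma img_sound (p : ℕ → W) {VD M w v l : ℕ} (h : img VD M w v l = true) :
    R (fun i => sg (bt w 10) • p (nb w i)) VD (2 * v) = R p VD l := by
  have := (chk_sound p h).1
  rw [R, if_pos (by omega), one_mul, Nat.mul_div_cancel_left _ two_pos, dw, dt_smul, this]
  cases bt w 10
  · rw [cond_false, R_xor]; simp [sg]
  · simp [sg]

lemma sok_sound {n GM VD nv j w : ℕ} (hv : allLT nv (vok n VD) = true) (hj : j < nv)
    (h : sok n GM VD (2 * nv + 1) j w = true)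
    (H : ∀ p, HG n GM p → Gen n p → ¬ ∀ i, 1 ≤ i → i ≤ j + 1 → TT p VD (2 * i)) :
    ∀ p, HG n GM p → Gen n p → ¬ ∀ i, 1 ≤ i → i ≤ j → TT p VD (2 * i) := by
  intro p hG hp hT
  by_cases hc : TT p VD (2 * (j + 1))
  · refine H p hG hp fun i h1 h2 => ?_
    rcases h2.lt_or_eq with h | rfl
    · exact hT i h1 (by omega)
    · exact hc
  simp only [sok, Bool.and_eq_true] at h
  obtain ⟨⟨⟨h1, h2⟩, h3⟩, h4⟩ := h
  have inv : ∀ i < n, nb w i < n ∧ nb w (nb w i) = i := fun i hi => by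
    simpa only [Bool.and_eq_true, Nat.blt_eq, Nat.beq_eq] using allLT_sound h1 hi
  refine H (fun i => sg (bt w 10) • p (nb w i)) (fun a b hab => ?_)
    (fun a ha b hb c hc d hd e he f hf ⟨r, hr⟩ => ?_) fun i i1 i2 => ⟨by omega, ?_⟩
  · obtain ⟨ha, hb⟩ := eg_lt hab
    have := allLT_sound (allLT_sound h2 ha) hb
    rw [hab] at this
    obtain ⟨u, u1, u2⟩ := hG _ _ this
    have ne : ∀ k < n, ∀ a < n, k ≠ a → nb w k ≠ nb w a := fun k hk a ha hne e =>
      hne (by rw [← (inv k hk).2, e, (inv a ha).2])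
    have sc : ∀ x : W, (sg (bt w 10) • u) ⬝ᵥ (sg (bt w 10) • x) = u ⬝ᵥ x := fun x => by
      rw [smul_dotProduct, dotProduct_smul, smul_eq_mul, smul_eq_mul, ← mul_assoc, sg_sq, one_mul]
    refine ⟨sg (bt w 10) • u, fun k hk hne => ?_, fun k hk hne => ?_⟩
    · rw [sc, sc]; exact u1 _ (inv k hk).1 (ne k hk a ha hne)
    · rw [sc, sc]; exact u2 _ (inv k hk).1 (ne k hk b hb hne)
  · rw [dt_smul]
    refine mul_ne_zero (fun e => by simpa [e] using sg_sq (bt w 10)) (hp _ (inv a ha).1 _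
      (inv b hb).1 _ (inv c hc).1 _ (inv d hd).1 _ (inv e he).1 _ (inv f hf).1
      ⟨fun i => r (nb w i), ?_⟩)
    simpa only [dt, (inv a ha).2, (inv b hb).2, (inv c hc).2, (inv d hd).2, (inv e he).2,
      (inv f hf).2] using hr
  · obtain ⟨i, rfl⟩ : ∃ k, i = k + 1 := ⟨i - 1, by omega⟩
    rcases i2.lt_or_eq with h | h
    · rw [img_sound p (allLT_sound h3 (i := i) (by omega))]
      exact (hT _ i1 (by omega)).2
    · rw [h, img_sound p h4, R_xor]
      linarith [R_neg (NZ_of hv hp) (by omega) (by omega) hc]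

theorem refute {n GM VD nv N : ℕ} {S : List ℕ} {db : ℕ → ℕ} (hv : allLT nv (vok n VD) = true)
    (hK : S.length < nv)
    (hs : allLT S.length (fun j => sok n GM VD (2 * nv + 1) j (S.getD j 0)) = true)
    (hr : Upto (ok n GM VD (2 * nv + 1) S.length) db (N + 1))
    (hN' : Nat.ble (cm db N) 4294967295 = true) (p : ℕ → W) : ¬ HG n GM p := by
  have key : ∀ j ≤ S.length, ∀ p, HG n GM p → Gen n p →
      ¬ ∀ i, 1 ≤ i → i ≤ j → TT p VD (2 * i) := by
    intro j hj
    induction hj using Nat.decreasingInduction with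
    | self =>
      intro p hG hp hT
      have hN := NZ_of hv hp
      exact run_sound (T := TT p VD) (fun h => absurd h.1 (by omega))
        (fun h => absurd h.1 (by omega)) (TT_cons p VD) (ok_sound hN hG hT) hr hN'
    | of_succ k hk ih => exact sok_sound hv (by omega) (allLT_sound hs hk) ih
  intro h
  obtain ⟨q, h1, h2⟩ := exists_gen h
  exact key 0 (Nat.zero_le _) q h1 h2 fun i h1 h2 => by omega

end Pool.Agent.P.MP_61d55c_co.Ex
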