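import Mathlib
import Pool.Agent.P.MP_61d55c_co.Ex.Gen

/-! Graphs without the seven forbidden subgraphs: basic counting. -/

set_option autoImplicit false

namespace Pool.Agent.P.MP_61d55c_co.Ex

open Finset Classical

variable {V : Type*}

/-- the pattern on `k` points with edge mask `GM` does not occur -/
def Free (A : V → V → Prop) (k GM : ℕ) : Prop :=
  ∀ g : ℕ → V, ¬ ∀ b < k, ∀ a < b,
    (eg k GM a b = true → A (g a) (g b)) ∧ (eg k GM a b = false → g a ≠ g b)

/-- number of points of the forbidden patterns -/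
def pk (q : ℕ) : ℕ := [6, 7, 8, 8, 8, 9, 9].getD q 6

/-- edge masks of the forbidden patterns -/
def pg (q : ℕ) : ℕ := [0x1f002f0037003b003d003e, 0x3f005f006f00730073007c007c,
  0x5f00af005f00af00f300f300fc00fc, 0x7f00bf00cf00c700e300f100f800fc,
  0x7f00bf00cb00c700e300d300fc00fc, 0x77003f011f018f01c700e301f301fc01fc,
  0x8f014f00af005f002f01f301f301fc01fc].getD q 0x1f002f0037003b003d003e

/-- a graph without the forbidden patterns -/
structure Adm (A : V → V → Prop) : Prop where
  symm : ∀ ⦃a b⦄, A a b → A b a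
  irr : ∀ a, ¬ A a a
  free : ∀ q < 7, Free A (pk q) (pg q)

/-- distinct and not adjacent -/
def co (A : V → V → Prop) (a b : V) : Prop := a ≠ b ∧ ¬ A a b

/-- degree into a set -/
noncomputable def dg (r : V → V → Prop) (S : Finset V) (v : V) : ℕ := (S.filter (r v)).card

/-- sum of the degrees -/
noncomputable def E (r : V → V → Prop) (S : Finset V) : ℕ := ∑ v ∈ S, dg r S v

section

variable {r : V → V → Prop} {S X Y : Finset V} {v : V}

lemma dg_mono (h : X ⊆ S) (v : V) : dg r X v ≤ dg r S v :=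
  card_le_card (filter_subset_filter _ h)

lemma dg_union (h : Disjoint X Y) (v : V) : dg r (X ∪ Y) v = dg r X v + dg r Y v := by
  unfold dg
  rw [filter_union, card_union_of_disjoint (disjoint_filter_filter h)]

lemma dg_insert {w : V} (h : w ∉ S) (v : V) :
    dg r (insert w S) v = dg r S v + if r v w then 1 else 0 := by
  unfold dg
  rw [filter_insert]
  split_ifs
  · rw [card_insert_of_notMem (fun e => h (mem_filter.1 e).1)]
  · rfl

lemma dg_zero : dg r S v = 0 ↔ ∀ w ∈ S, ¬ r v w := by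
  unfold dg
  rw [card_eq_zero, filter_eq_empty_iff]

lemma dg_two : 2 ≤ dg r S v ↔ ∃ a ∈ S, ∃ b ∈ S, a ≠ b ∧ r v a ∧ r v b := by
  unfold dg
  rw [Nat.succ_le_iff, one_lt_card]
  simp only [mem_filter]
  grind

lemma dg_one (h : dg r S v ≤ 1) (d : V) : ∃ s, ∀ w ∈ S, w ≠ s → ¬ r v w := by
  by_cases h0 : ∃ s ∈ S, r v s
  · obtain ⟨s, h1, h2⟩ := h0
    refine ⟨s, fun w hw hne hr => ?_⟩
    have := dg_two.2 ⟨w, hw, s, h1, hne, hr, h2⟩
    omega
  · exact ⟨d, fun w hw _ hr => h0 ⟨w, hw, hr⟩⟩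

lemma E_insert (hs : ∀ ⦃a b⦄, r a b → r b a) (hi : ∀ a, ¬ r a a) (h : v ∉ S) :
    E r (insert v S) = E r S + 2 * dg r S v := by
  unfold E
  rw [sum_insert h]
  simp only [dg_insert h, sum_add_distrib, if_neg (hi v)]
  have : ∑ w ∈ S, (if r w v then 1 else 0) = dg r S v := by
    unfold dg
    rw [card_filter]
    exact sum_congr rfl fun w _ => if_congr ⟨fun e => hs e, fun e => hs e⟩ rfl rfl
  omega

lemma dg_erase (hi : ∀ a, ¬ r a a) : dg r (S.erase v) v = dg r S v := by
  unfold dg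
  congr 1
  ext w
  simp only [mem_filter, mem_erase]
  exact ⟨fun h => ⟨h.1.2, h.2⟩, fun h => ⟨⟨fun e => hi v (e ▸ h.2), h.1⟩, h.2⟩⟩

lemma E_erase (hs : ∀ ⦃a b⦄, r a b → r b a) (hi : ∀ a, ¬ r a a) (h : v ∈ S) :
    E r S = E r (S.erase v) + 2 * dg r S v := by
  conv_lhs => rw [← insert_erase h]
  rw [E_insert hs hi (notMem_erase _ _), dg_erase hi]

lemma E_even (hs : ∀ ⦃a b⦄, r a b → r b a) (hi : ∀ a, ¬ r a a) (S : Finset V) :
    ∃ k, E r S = 2 * k := by
  induction S using Finset.induction_on with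
  | empty => exact ⟨0, rfl⟩
  | insert v S h ih =>
    obtain ⟨k, e⟩ := ih
    exact ⟨k + dg r S v, by rw [E_insert hs hi h, e]; ring⟩

lemma E_mono (h : X ⊆ S) : E r X ≤ E r S :=
  (sum_le_sum fun v _ => dg_mono h v).trans (sum_le_sum_of_subset h)

lemma E_union (h : Disjoint X Y) : E r X + E r Y ≤ E r (X ∪ Y) := by
  unfold E
  rw [sum_union h]
  exact add_le_add (sum_le_sum fun v _ => dg_mono subset_union_left v)
    (sum_le_sum fun v _ => dg_mono subset_union_right v)

lemma E_zero : E r S = 0 ↔ ∀ v ∈ S, ∀ w ∈ S, ¬ r v w := by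
  unfold E
  simp only [sum_eq_zero_iff, dg_zero]

lemma E_le {d : ℕ} (h : ∀ v ∈ S, dg r S v ≤ d) : E r S ≤ S.card * d := by
  exact sum_le_card_nsmul S _ d h

end

variable {A : V → V → Prop} (hA : Adm A) {S : Finset V}

lemma co_irr (a : V) : ¬ co A a a := fun h => h.1 rfl

lemma co_not {a b : V} (h : ¬ co A a b) (h' : a ≠ b) : A a b := by
  by_contra e; exact h ⟨h', e⟩

include hA

lemma Adm.cs ⦃a b : V⦄ (h : co A a b) : co A b a := ⟨h.1.symm, fun e => h.2 (hA.symm e)⟩

lemma Adm.ne {a b : V} (h : A a b) : a ≠ b := fun e => hA.irr a (e ▸ h)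

omit hA in
lemma dg_out {v : V} (h : v ∉ S) : dg A S v + dg (co A) S v = S.card := by
  unfold dg
  rw [← card_filter_add_card_filter_not (s := S) (A v)]
  congr 2
  exact filter_congr fun w hw => ⟨fun e => e.2, fun e => ⟨fun e' => h (e' ▸ hw), e⟩⟩

lemma Adm.dg_in {v : V} (h : v ∈ S) : dg A S v + dg (co A) S v + 1 = S.card := by
  rw [← dg_erase hA.irr, ← dg_erase co_irr, dg_out (notMem_erase _ _), card_erase_add_one h]

lemma Adm.E_add (S : Finset V) : E A S + E (co A) S + S.card = S.card * S.card := by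
  unfold E
  rw [card_eq_sum_ones, ← sum_add_distrib, ← sum_add_distrib, ← card_eq_sum_ones,
    sum_congr rfl fun v hv => hA.dg_in hv]
  simp

/-- a complete bipartite graph on two plus two points -/
structure J (A : V → V → Prop) (x x' y y' : V) : Prop where
  n1 : x ≠ x'
  n2 : y ≠ y'
  e1 : A x y
  e2 : A x y'
  e3 : A x' y
  e4 : A x' y'

/-- a common neighbour of four points -/
structure N (A : V → V → Prop) (x x' y y' w : V) : Prop where
  e1 : A x w
  e2 : A x' w
  e3 : A y w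
  e4 : A y' w

variable {x x' y y' a b c d e : V}

lemma Adm.k7 (j : J A x x' y y') (ha : N A x x' y y' a) (hb : N A x x' y y' b)
    (hc : N A x x' y y' c) (h1 : A a b) (h2 : A a c) (h3 : A b c) : False := by
  obtain ⟨_, _, _, _, _, _⟩ := j
  obtain ⟨_, _, _, _⟩ := ha
  obtain ⟨_, _, _, _⟩ := hb
  obtain ⟨_, _, _, _⟩ := hc
  refine hA.free 1 (by decide) (fun i => [x, x', y, y', a, b, c].getD i x) fun j hj i hi => ?_
  change j < 7 at hj
  interval_cases j <;> interval_cases i <;>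
    simp only [List.getD_cons_zero, List.getD_cons_succ] <;>
    exact ⟨fun h => by first | assumption | exact absurd h (by decide),
      fun h => by first | assumption | exact absurd h (by decide)⟩

lemma Adm.c4 (j : J A x x' y y') (ha : N A x x' y y' a) (hb : N A x x' y y' b)
    (hc : N A x x' y y' c) (hd : N A x x' y y' d) (h1 : A a b) (h2 : A b c) (h3 : A c d)
    (h4 : A a d) (n1 : a ≠ c) (n2 : b ≠ d) : False := by
  obtain ⟨_, _, _, _, _, _⟩ := j
  obtain ⟨_, _, _, _⟩ := ha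
  obtain ⟨_, _, _, _⟩ := hb
  obtain ⟨_, _, _, _⟩ := hc
  obtain ⟨_, _, _, _⟩ := hd
  refine hA.free 2 (by decide) (fun i => [x, x', y, y', a, b, c, d].getD i x) fun j hj i hi => ?_
  change j < 8 at hj
  interval_cases j <;> interval_cases i <;>
    simp only [List.getD_cons_zero, List.getD_cons_succ] <;>
    exact ⟨fun h => by first | assumption | exact absurd h (by decide),
      fun h => by first | assumption | exact absurd h (by decide)⟩

lemma Adm.p5 (j : J A x x' y y') (ha : N A x x' y y' a) (hb : N A x x' y y' b)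
    (hc : N A x x' y y' c) (hd : N A x x' y y' d) (he : N A x x' y y' e) (h1 : A a b) (h2 : A b c)
    (h3 : A c d) (h4 : A d e) (n1 : a ≠ c) (n2 : a ≠ d) (n3 : a ≠ e) (n4 : b ≠ d) (n5 : b ≠ e)
    (n6 : c ≠ e) : False := by
  obtain ⟨_, _, _, _, _, _⟩ := j
  obtain ⟨_, _, _, _⟩ := ha
  obtain ⟨_, _, _, _⟩ := hb
  obtain ⟨_, _, _, _⟩ := hc
  obtain ⟨_, _, _, _⟩ := hd
  obtain ⟨_, _, _, _⟩ := he
  refine hA.free 6 (by decide) (fun i => [x, x', y, y', a, b, c, d, e].getD i x)
    fun j hj i hi => ?_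
  change j < 9 at hj
  interval_cases j <;> interval_cases i <;>
    simp only [List.getD_cons_zero, List.getD_cons_succ] <;>
    exact ⟨fun h => by first | assumption | exact absurd h (by decide),
      fun h => by first | assumption | exact absurd h (by decide)⟩

/-- two disjoint edges in the common neighbourhood of `y, y'` and of the edge `x x'` -/
lemma Adm.u2 (j : J A x x' y y') (hx : A x x') (ha : N A x x' y y' a) (hb : N A x x' y y' b)
    (hc : N A x x' y y' c) (hd : N A x x' y y' d) (h1 : A a c) (h2 : A b d)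
    (n1 : a ≠ b) (n2 : b ≠ c) (n3 : c ≠ d) (n4 : a ≠ d) : False := by
  obtain ⟨_, _, e1, e2, e3, e4⟩ := j
  obtain ⟨a1, a2, _, _⟩ := ha
  obtain ⟨b1, b2, _, _⟩ := hb
  obtain ⟨c1, c2, _, _⟩ := hc
  obtain ⟨d1, d2, _, _⟩ := hd
  have := hA.symm e1; have := hA.symm e2; have := hA.symm e3; have := hA.symm e4
  have := hA.symm a1; have := hA.symm a2; have := hA.symm b1; have := hA.symm b2
  have := hA.symm c1; have := hA.symm c2; have := hA.symm d1; have := hA.symm d2
  refine hA.free 4 (by decide) (fun i => [y, y', a, b, c, d, x, x'].getD i x) fun j hj i hi => ?_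
  change j < 8 at hj
  interval_cases j <;> interval_cases i <;>
    simp only [List.getD_cons_zero, List.getD_cons_succ] <;>
    exact ⟨fun h => by first | assumption | exact absurd h (by decide),
      fun h => by first | assumption | exact absurd h (by decide)⟩

/-- the complement of an edge plus a path on seven points -/
lemma Adm.f6 {f g : V} (n0 : y ≠ y') (hy : ∀ v ∈ [x, a, b, c, d, e, f], A y v ∧ A y' v)
    (h1 : ∀ v ∈ [b, c, d, e, f], A x v) (h2 : ∀ v ∈ [c, d, e, f], A a v)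
    (h3 : ∀ v ∈ [d, e, f], A b v) (h4 : ∀ v ∈ [e, f], A c v) (h5 : A d f)
    (n1 : x ≠ a) (n2 : a ≠ b) (n3 : b ≠ c) (n4 : c ≠ d) (n5 : d ≠ e) (n6 : e ≠ f) : False := by
  simp only [List.mem_cons, List.not_mem_nil, or_false, forall_eq_or_imp, forall_eq,
    and_assoc] at hy h1 h2 h3 h4
  obtain ⟨_, _, _, _, _, _, _, _, _, _, _, _, _, _⟩ := hy
  obtain ⟨_, _, _, _, _⟩ := h1
  obtain ⟨_, _, _, h6⟩ := h2
  obtain ⟨_, _, _⟩ := h3
  obtain ⟨_, _⟩ := h4
  have := hA.ne h6
  refine hA.free 5 (by decide) (fun i => [y, y', x, a, b, c, d, e, f].getD i g)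
    fun j hj i hi => ?_
  change j < 9 at hj
  interval_cases j <;> interval_cases i <;>
    simp only [List.getD_cons_zero, List.getD_cons_succ] <;>
    exact ⟨fun h => by first | assumption | exact absurd h (by decide),
      fun h => by first | assumption | exact absurd h (by decide)⟩

lemma Adm.leaf (j : J A x x' y y') (hS : ∀ w ∈ S, N A x x' y y' w) (hne : S.Nonempty) :
    ∃ w ∈ S, dg A S w ≤ 1 := by
  by_contra h
  push Not at h
  obtain ⟨c, hc⟩ := hne
  obtain ⟨b, hb, d, hd, bd, cb, cd⟩ := dg_two.1 (h c hc)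
  have nx : ∀ b ∈ S, ∃ a ∈ S, a ≠ c ∧ A b a := fun b hb => by
    obtain ⟨p, hp, q, hq, pq, h1, h2⟩ := dg_two.1 (h b hb)
    by_cases e : p = c
    · exact ⟨q, hq, fun e' => pq (e.trans e'.symm), h2⟩
    · exact ⟨p, hp, e, h1⟩
  obtain ⟨a, ha, ac, ba⟩ := nx b hb
  obtain ⟨e, he, ec, de⟩ := nx d hd
  by_cases h1 : a = d
  · exact hA.k7 j (hS c hc) (hS b hb) (hS d hd) cb cd (h1 ▸ ba)
  by_cases h2 : b = e
  · exact hA.k7 j (hS c hc) (hS d hd) (hS b hb) cd cb (h2 ▸ de)
  by_cases h3 : a = e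
  · exact hA.c4 j (hS a ha) (hS b hb) (hS c hc) (hS d hd) (hA.symm ba) (hA.symm cb) cd
      (hA.symm (h3 ▸ de)) ac bd
  exact hA.p5 j (hS a ha) (hS b hb) (hS c hc) (hS d hd) (hS e he) (hA.symm ba) (hA.symm cb) cd de
    ac h1 h3 bd h2 ec.symm

lemma Adm.forest (j : J A x x' y y') (hS : ∀ w ∈ S, N A x x' y y' w) (hne : S.Nonempty) :
    E A S + 2 ≤ 2 * S.card := by
  induction S using Finset.strongInduction with
  | H S ih =>
  obtain ⟨w, hw, h⟩ := hA.leaf j hS hne
  have e1 := E_erase hA.symm hA.irr hw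
  have e2 := card_erase_add_one hw
  rcases (S.erase w).eq_empty_or_nonempty with h0 | h0
  · have := dg_erase (S := S) (v := w) hA.irr
    rw [h0] at this e1
    have e3 : dg A ∅ w = 0 := rfl
    have e4 : E A ∅ = 0 := rfl
    omega
  · have := ih _ (erase_ssubset hw) (fun v hv => hS v (mem_of_mem_erase hv)) h0
    omega

end Pool.Agent.P.MP_61d55c_co.Ex
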