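import Mathlib
import Pool.Agent.P.MP_61d55c_co.Ex.Gr

/-! Breadth-first labelling and the clauses about graphs on ten points. -/

set_option autoImplicit false

namespace Pool.Agent.P.MP_61d55c_co.Ex

open Finset Classical

variable {V : Type*}

lemma bfs (r : V → V → Prop) {S : Finset V} {v : V} (hv : v ∈ S) (t : ℕ) (ht : t + 1 ≤ S.card) :
    ∃ f : ℕ → V, f 0 = v ∧ (∀ i ≤ t, f i ∈ S) ∧ (∀ j ≤ t, ∀ i < j, f i ≠ f j) ∧
      ∀ j ≤ t, ∀ i < j, ∀ w ∈ S, (∀ a < j, f a ≠ w) → r (f i) w → ∃ a ≤ i, r (f a) (f j) := by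
  induction t with
  | zero => exact ⟨fun _ => v, rfl, fun _ _ => hv, fun j _ i _ => by omega, fun j _ i _ => by omega⟩
  | succ t ih =>
    obtain ⟨f, h0, h1, h2, h3⟩ := ih (by omega)
    have : ∃ u ∈ S, (∀ a < t + 1, f a ≠ u) ∧ ∀ i < t + 1, ∀ w ∈ S, (∀ a < t + 1, f a ≠ w) →
        r (f i) w → ∃ a ≤ i, r (f a) u := by
      by_cases hex : ∃ i, ∃ w ∈ S, (∀ a < t + 1, f a ≠ w) ∧ r (f i) w
      · obtain ⟨u, p1, p2, p3⟩ := Nat.find_spec hex
        exact ⟨u, p1, p2, fun i _ w q1 q2 q3 => ⟨_, Nat.find_min' hex ⟨w, q1, q2, q3⟩, p3⟩⟩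
      · obtain ⟨u, p1, p2⟩ := exists_mem_notMem_of_card_lt_card
          (s := (range (t + 1)).image f) (t := S) (lt_of_le_of_lt card_image_le (by simpa using ht))
        exact ⟨u, p1, fun a ha e => p2 (mem_image.2 ⟨a, mem_range.2 ha, e⟩),
          fun i _ w q1 q2 q3 => absurd ⟨i, w, q1, q2, q3⟩ hex⟩
    obtain ⟨u, p1, p2, p3⟩ := this
    have e1 : ∀ a ≤ t, Function.update f (t + 1) u a = f a := fun a ha =>
      Function.update_of_ne (by omega) _ _
    have e2 : Function.update f (t + 1) u (t + 1) = u := Function.update_self ..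
    generalize Function.update f (t + 1) u = g at e1 e2
    refine ⟨g, by rw [e1 0 (by omega), h0], fun i hi => ?_, fun j hj i hi => ?_,
      fun j hj i hi w q1 q2 q3 => ?_⟩
    · rcases hi.lt_or_eq with h | rfl
      · rw [e1 i (by omega)]; exact h1 i (by omega)
      · rwa [e2]
    · rw [e1 i (by omega)]
      rcases hj.lt_or_eq with h | rfl
      · rw [e1 j (by omega)]; exact h2 j (by omega) i hi
      · rw [e2]; exact p2 i hi
    · rw [e1 i (by omega)] at q3
      have q2' : ∀ a < j, f a ≠ w := fun a ha => e1 a (by omega) ▸ q2 a ha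
      rcases hj.lt_or_eq with h | rfl
      · obtain ⟨a, ha, h⟩ := h3 j (by omega) i hi w q1 q2' q3
        exact ⟨a, ha, by rwa [e1 a (by omega), e1 j (by omega)]⟩
      · obtain ⟨a, ha, h⟩ := p3 i hi w q1 q2' q3
        exact ⟨a, ha, by rwa [e1 a (by omega), e2]⟩

/-- the literal saying that `a` and `b` are not adjacent -/
def hl (a b : ℕ) : ℕ :=
  cond (Nat.ble a b) (Nat.add (Nat.mul 32 a) (Nat.mul 2 b)) (Nat.add (Nat.mul 32 b) (Nat.mul 2 a))

/-- two different points -/
def df (a b : ℕ) : Bool := Nat.blt a 10 && Nat.blt b 10 && !Nat.beq a b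

/-- the mask holds the literal -/
def has (c l : ℕ) : Bool := Nat.beq (Nat.land (Nat.shiftRight c (Nat.add l 32)) 1) 1

/-- the mask holds the positive literal -/
def ps (c a b : ℕ) : Bool := df a b && has c (hl a b)

/-- the mask holds the negative literal -/
def ng (c a b : ℕ) : Bool := df a b && has c (Nat.succ (hl a b))

/-- validity test for a given clause about graphs -/
noncomputable def okg (r w : ℕ) : Bool :=
  force (mask 0 r (Nat.land r 127)) fun m =>
  force (nb w 0) fun t => force (nb w 1) fun a => force (nb w 2) fun b =>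
  force (nb w 3) fun c => force (nb w 4) fun d => force (nb w 5) fun e => force (nb w 6) fun f =>
  cond (Nat.beq t 7) (ng m a b && ng m a c && ng m a d && df b c && df b d && df c d)
  (cond (Nat.beq t 8) (ng m 0 a && ng m 0 b && df a b)
  (cond (Nat.beq t 9) (Nat.blt a b && Nat.blt b c && ng m a c &&
    allLT (Nat.succ a) fun i => ps m i b)
  (cond (Nat.beq t 10) (ng m a b && ng m a c && ng m b c && ng m d e && ng m d f && ng m e f &&
    df a d && df a e && df a f && df b d && df b e && df b f && df c d && df c e && df c f)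
  (Nat.blt t 7 && allLT (pk t) fun j => allLT j fun i =>
    cond (eg (pk t) (pg t) i j) (ps m (nb w (i + 1)) (nb w (j + 1)))
      (df (nb w (i + 1)) (nb w (j + 1)))))))

lemma mask_inv {r n l : ℕ} (h : (mask 0 r n).testBit (l + 32) = true) : ∃ i < n, lit r i = l := by
  induction n with
  | zero => simp [mask] at h
  | succ n ih =>
    rcases bit_lor (F := mask 0 r n) h with h | h
    · obtain ⟨i, hi, e⟩ := ih h
      exact ⟨i, by omega, e⟩
    · exact ⟨n, by omega, (bit_one _ _ h).symm⟩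

lemma has_bit {c l : ℕ} (h : has c l = true) : c.testBit (l + 32) = true := by
  have e : (c >>> (l + 32)) &&& 1 = 1 := Nat.eq_of_beq_eq_true h
  unfold Nat.testBit
  rw [Nat.and_comm, e]
  rfl

lemma df_sound {a b : ℕ} (h : df a b = true) : a < 10 ∧ b < 10 ∧ a ≠ b := by
  simpa only [df, Bool.and_eq_true, Nat.blt_eq, beq_false, and_assoc] using h

/-- two disjoint independent sets of size `j` -/
def Two (A : V → V → Prop) (S : Finset V) (j : ℕ) : Prop :=
  ∃ X ⊆ S, ∃ Y ⊆ S, Disjoint X Y ∧ X.card = j ∧ Y.card = j ∧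
    (∀ a ∈ X, ∀ b ∈ X, ¬ A a b) ∧ ∀ a ∈ Y, ∀ b ∈ Y, ¬ A a b

variable {A : V → V → Prop} (hA : Adm A) {S : Finset V}

include hA

lemma ten_of {db : ℕ → ℕ} {n : ℕ} (hr : Upto okg db (n + 1))
    (hn : Nat.ble (cm db n) 4294967295 = true) (hc : 10 ≤ S.card)
    (hd : ∀ v ∈ S, dg (co A) S v ≤ 2) {v : V} (hv : v ∈ S) (hv' : dg (co A) S v ≤ 1) :
    Two A S 3 := by
  by_contra h2
  obtain ⟨f, f0, f1, f2, f3⟩ := bfs (co A) hv 9 hc
  have inj : ∀ {a b}, df a b = true → f a ≠ f b := fun {a b} h => by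
    obtain ⟨p, q, e⟩ := df_sound h
    rcases lt_or_gt_of_ne e with h | h
    · exact f2 b (by omega) a h
    · exact (f2 a (by omega) b h).symm
  have mem : ∀ {a b}, df a b = true → f a ∈ S ∧ f b ∈ S := fun {a b} h => by
    obtain ⟨p, q, e⟩ := df_sound h
    exact ⟨f1 a (by omega), f1 b (by omega)⟩
  refine run_sound (T := fun l => 2 ≤ l ∧ (l % 2 = 0 ↔ co A (f (l / 2 / 16)) (f (l / 2 % 16))))
    (fun h => absurd h.1 (by omega)) (fun h => absurd h.1 (by omega)) (fun l p q => ?_)
    (fun r w h => ?_) hr hn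
  · obtain ⟨e1, e2⟩ := xor_one l
    rw [e1, e2] at q
    tauto
  by_contra hF
  push Not at hF
  unfold okg at h
  simp only [force_eq] at h
  have key : ∀ {a b : ℕ} (s : ℕ), s < 2 → df a b = true →
      has (mask 0 r (Nat.land r 127)) (hl a b + s) = true → ¬ (s = 0 ↔ co A (f a) (f b)) := by
    intro a b s hs h1 h2
    obtain ⟨i, hi, e⟩ := mask_inv (has_bit h2)
    obtain ⟨p, q, ne⟩ := df_sound h1
    have := hF i hi
    rw [e] at this
    unfold hl at this
    revert this
    cases Nat.ble a b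
    · simp only [cond_false, Nat.add_eq, Nat.mul_eq]
      rw [show (32 * b + 2 * a + s) / 2 / 16 = b by omega,
        show (32 * b + 2 * a + s) / 2 % 16 = a by omega, show (32 * b + 2 * a + s) % 2 = s by omega]
      have := hA.cs (a := f a) (b := f b)
      have := hA.cs (a := f b) (b := f a)
      intro h
      have := h (by omega)
      tauto
    · simp only [cond_true, Nat.add_eq, Nat.mul_eq]
      rw [show (32 * a + 2 * b + s) / 2 / 16 = a by omega,
        show (32 * a + 2 * b + s) / 2 % 16 = b by omega, show (32 * a + 2 * b + s) % 2 = s by omega]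
      intro h
      have := h (by omega)
      tauto
  have P : ∀ {a b}, ps (mask 0 r (Nat.land r 127)) a b = true →
      df a b = true ∧ ¬ co A (f a) (f b) := fun h => by
    rw [ps, Bool.and_eq_true] at h
    have := key 0 (by omega) h.1 h.2
    exact ⟨h.1, by tauto⟩
  have Q : ∀ {a b}, ng (mask 0 r (Nat.land r 127)) a b = true →
      df a b = true ∧ co A (f a) (f b) := fun h => by
    rw [ng, Bool.and_eq_true] at h
    have := key 1 (by omega) h.1 h.2
    exact ⟨h.1, by simpa using this⟩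
  generalize mask 0 r (Nat.land r 127) = m at h P Q
  rcases cond_elim h with h | h
  · simp only [Bool.and_eq_true, and_assoc] at h
    obtain ⟨h1, h2, h3, h4, h5, h6⟩ := h
    have := hd _ (mem (Q h1).1).1
    have : 2 < dg (co A) S (f (nb w 1)) := two_lt_card_iff.2 ⟨_, _, _,
      mem_filter.2 ⟨(mem h4).1, (Q h1).2⟩, mem_filter.2 ⟨(mem h4).2, (Q h2).2⟩,
      mem_filter.2 ⟨(mem h5).2, (Q h3).2⟩, inj h4, inj h5, inj h6⟩
    omega
  rcases cond_elim h with h | h
  · simp only [Bool.and_eq_true, and_assoc] at h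
    obtain ⟨h1, h2, h3⟩ := h
    have := dg_two.2 ⟨_, (mem h3).1, _, (mem h3).2, inj h3, (Q h1).2, (Q h2).2⟩
    rw [f0] at this
    omega
  rcases cond_elim h with h | h
  · simp only [Bool.and_eq_true, and_assoc, Nat.blt_eq] at h
    obtain ⟨h1, h2, h3, h4⟩ := h
    have p := (df_sound (Q h3).1).2.1
    obtain ⟨a, ha, e⟩ := f3 _ (by omega) _ h1 _ (mem (Q h3).1).2
      (fun a ha => f2 _ (by omega) a (by omega)) (Q h3).2
    exact (P (allLT_sound h4 (Nat.lt_succ_of_le ha))).2 e
  rcases cond_elim h with h | h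
  · simp only [Bool.and_eq_true, and_assoc] at h
    obtain ⟨h1, h3, h4, h5, h6, h7, g1, g2, g3, g4, g5, g6, g7, g8, g9⟩ := h
    have tri : ∀ {a b c}, ng m a b = true → ng m a c = true → ng m b c = true →
        ({f a, f b, f c} : Finset V) ⊆ S ∧ ({f a, f b, f c} : Finset V).card = 3 ∧
          ∀ x ∈ ({f a, f b, f c} : Finset V), ∀ y ∈ ({f a, f b, f c} : Finset V), ¬ A x y := by
      intro a b c p q s
      obtain ⟨p1, p2⟩ := Q p
      obtain ⟨q1, q2⟩ := Q q
      obtain ⟨s1, s2⟩ := Q s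
      refine ⟨?_, card_eq_three.2 ⟨_, _, _, p2.1, q2.1, s2.1, rfl⟩, ?_⟩
      · simp only [insert_subset_iff, singleton_subset_iff]
        exact ⟨(mem p1).1, (mem p1).2, (mem q1).2⟩
      · simp only [mem_insert, mem_singleton, forall_eq_or_imp, forall_eq]
        exact ⟨⟨hA.irr _, p2.2, q2.2⟩, ⟨(hA.cs p2).2, hA.irr _, s2.2⟩,
          (hA.cs q2).2, (hA.cs s2).2, hA.irr _⟩
    obtain ⟨p1, p2, p3⟩ := tri h1 h3 h4
    obtain ⟨q1, q2, q3⟩ := tri h5 h6 h7
    refine h2 ⟨_, p1, _, q1, ?_, p2, q2, p3, q3⟩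
    simp only [disjoint_insert_left, disjoint_singleton_left, mem_insert, mem_singleton, not_or]
    exact ⟨⟨inj g1, inj g2, inj g3⟩, ⟨inj g4, inj g5, inj g6⟩, inj g7, inj g8, inj g9⟩
  · simp only [Bool.and_eq_true, Nat.blt_eq] at h
    refine hA.free _ h.1 (fun i => f (nb w (i + 1))) fun j hj i hi => ?_
    have := allLT_sound (allLT_sound h.2 hj) hi
    constructor <;> intro e <;> rw [e] at this
    · exact co_not (P this).2 (inj (P this).1)
    · exact inj this

end Pool.Agent.P.MP_61d55c_co.Ex
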