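import Mathlib
import Pool.Agent.P.MP_61d55c_co.Ex.Bfs

/-! The structure of extremal graphs: adding a triangle. -/

set_option autoImplicit false

namespace Pool.Agent.P.MP_61d55c_co.Ex

open Finset Classical

variable {V : Type*}

/-- two independent sets of size `m` and a tree on `k + 1` points, completely joined -/
structure Ctx (A : V → V → Prop) (S X Y Z : Finset V) (m k : ℕ) : Prop where
  adm : Adm A
  hm : 3 ≤ m
  hd : ∀ v ∈ S, dg (co A) S v ≤ m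
  sX : X ⊆ S
  sY : Y ⊆ S
  sZ : Z ⊆ S
  cX : X.card = m
  cY : Y.card = m
  cZ : Z.card = k + 1
  qX : ∀ a ∈ X, ∀ b ∈ X, ¬ A a b
  qY : ∀ a ∈ Y, ∀ b ∈ Y, ¬ A a b
  jXY : ∀ x ∈ X, ∀ y ∈ Y, A x y
  jXZ : ∀ x ∈ X, ∀ z ∈ Z, A x z
  jYZ : ∀ y ∈ Y, ∀ z ∈ Z, A y z
  eZ : 2 * k ≤ E A Z

variable {A : V → V → Prop} {S X Y Z : Finset V} {m k : ℕ} {t t' : V}

lemma two_mem (h : 2 ≤ S.card) : ∃ a ∈ S, ∃ b ∈ S, a ≠ b := one_lt_card.1 h

lemma two_ne (h : 3 ≤ S.card) (s : V) : ∃ a ∈ S, ∃ b ∈ S, a ≠ b ∧ a ≠ s ∧ b ≠ s := by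
  obtain ⟨a, ha, b, hb, h⟩ := two_mem (S := S.erase s) (by have := pred_card_le_card_erase (s := S) (a := s); omega)
  exact ⟨a, mem_of_mem_erase ha, b, mem_of_mem_erase hb, h, ne_of_mem_erase ha, ne_of_mem_erase hb⟩

lemma Adm.disj (hA : Adm A) (h : ∀ x ∈ X, ∀ y ∈ Y, A x y) : Disjoint X Y :=
  disjoint_left.2 fun a h1 h2 => hA.irr a (h a h1 a h2)

variable (C : Ctx A S X Y Z m k)

include C

lemma Ctx.swap : Ctx A S Y X Z m k :=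
  ⟨C.adm, C.hm, C.hd, C.sY, C.sX, C.sZ, C.cY, C.cX, C.cZ, C.qY, C.qX,
    fun y hy x hx => C.adm.symm (C.jXY x hx y hy), C.jYZ, C.jXZ, C.eZ⟩

lemma Ctx.twoX (ht : t ∈ S) (ht' : t' ∈ S) (hX : t ∉ X) (hX' : t' ∉ X) (hne : t ≠ t')
    (h : dg A X t ≤ 1) (h' : dg A X t' ≤ 1) : False := by
  have e := dg_out (A := A) hX
  have e' := dg_out (A := A) hX'
  have := C.hm
  have := C.cX
  obtain ⟨x, h1, h2⟩ : ∃ x ∈ X.filter (co A t), x ∈ X.filter (co A t') := by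
    refine not_disjoint_iff.1 fun hd => ?_
    have := card_le_card (union_subset (filter_subset (co A t) X) (filter_subset (co A t') X))
    rw [card_union_of_disjoint hd] at this
    unfold dg at *
    omega
  rw [mem_filter] at h1 h2
  have p1 := C.hd x (C.sX h1.1)
  have p2 := dg_mono (r := co A) (insert_subset ht (insert_subset ht' C.sX)) x
  rw [dg_insert (by simp [hne, hX]), dg_insert hX', if_pos (C.adm.cs h1.2),
    if_pos (C.adm.cs h2.2)] at p2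
  have p3 := C.adm.dg_in h1.1
  rw [dg_zero.2 (C.qX x h1.1)] at p3
  omega

lemma Ctx.typeZ (hk : k = m) (ht : t ∈ S) (hZ : t ∉ Z) (hX : t ∉ X) (hY : t ∉ Y)
    (h : 2 ≤ dg A X t) (h' : 2 ≤ dg A Y t) :
    (∀ x ∈ X, A x t) ∧ (∀ y ∈ Y, A y t) ∧ 1 ≤ dg A Z t := by
  have hA := C.adm
  obtain ⟨x, hx, x', hx', n1, p1, p2⟩ := dg_two.1 h
  obtain ⟨y, hy, y', hy', n2, p3, p4⟩ := dg_two.1 h'
  have f := hA.forest (S := insert t Z) ⟨n1, n2, C.jXY _ hx _ hy, C.jXY _ hx _ hy',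
    C.jXY _ hx' _ hy, C.jXY _ hx' _ hy'⟩ (fun w hw => by
      rcases mem_insert.1 hw with rfl | hw
      · exact ⟨hA.symm p1, hA.symm p2, hA.symm p3, hA.symm p4⟩
      · exact ⟨C.jXZ _ hx _ hw, C.jXZ _ hx' _ hw, C.jYZ _ hy _ hw, C.jYZ _ hy' _ hw⟩)
    (insert_nonempty _ _)
  rw [E_insert hA.symm hA.irr hZ, card_insert_of_notMem hZ] at f
  have e1 := dg_out (A := A) hZ
  have e2 := C.hd t ht
  have e3 := dg_mono (r := co A) (union_subset (union_subset C.sX C.sY) C.sZ) t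
  rw [dg_union (disjoint_union_left.2 ⟨hA.disj C.jXZ, hA.disj C.jYZ⟩),
    dg_union (hA.disj C.jXY)] at e3
  have := C.cZ
  have := C.eZ
  exact ⟨fun a ha => hA.symm (co_not (dg_zero.1 (by omega) a ha) fun e => hX (e ▸ ha)),
    fun a ha => hA.symm (co_not (dg_zero.1 (by omega) a ha) fun e => hY (e ▸ ha)), by omega⟩

lemma Ctx.ins (ht : t ∈ S) (hZ : t ∉ Z)
    (h : (∀ x ∈ X, A x t) ∧ (∀ y ∈ Y, A y t) ∧ 1 ≤ dg A Z t) :
    Ctx A S X Y (insert t Z) m (k + 1) :=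
  ⟨C.adm, C.hm, C.hd, C.sX, C.sY, insert_subset ht C.sZ, C.cX, C.cY,
    by rw [card_insert_of_notMem hZ, C.cZ], C.qX, C.qY, C.jXY,
    fun x hx => forall_mem_insert _ _ _ |>.2 ⟨h.1 x hx, C.jXZ x hx⟩,
    fun x hx => forall_mem_insert _ _ _ |>.2 ⟨h.2.1 x hx, C.jYZ x hx⟩, by
    rw [E_insert C.adm.symm C.adm.irr hZ]
    have := C.eZ
    omega⟩

lemma Ctx.exJ : ∃ x x' y y', J A x x' y y' ∧ ∀ z ∈ Z, N A x x' y y' z := by
  have := C.hm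
  obtain ⟨x, hx, x', hx', n1⟩ := two_mem (S := X) (by rw [C.cX]; omega)
  obtain ⟨y, hy, y', hy', n2⟩ := two_mem (S := Y) (by rw [C.cY]; omega)
  exact ⟨x, x', y, y', ⟨n1, n2, C.jXY _ hx _ hy, C.jXY _ hx _ hy',
    C.jXY _ hx' _ hy, C.jXY _ hx' _ hy'⟩, fun w hw =>
    ⟨C.jXZ _ hx _ hw, C.jXZ _ hx' _ hw, C.jYZ _ hy _ hw, C.jYZ _ hy' _ hw⟩⟩

lemma Ctx.twoZ (ht : t ∈ S) (ht' : t' ∈ S) (hZ : t ∉ Z) (hZ' : t' ∉ Z) (ha : A t t')
    (h : (∀ x ∈ X, A x t) ∧ (∀ y ∈ Y, A y t) ∧ 1 ≤ dg A Z t)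
    (h' : (∀ x ∈ X, A x t') ∧ (∀ y ∈ Y, A y t') ∧ 1 ≤ dg A Z t') : False := by
  have hA := C.adm
  have n : t ∉ insert t' Z := by simp [hA.ne ha, hZ]
  have C2 := (C.ins ht' hZ' h').ins ht n ⟨h.1, h.2.1, h.2.2.trans (dg_mono (subset_insert _ _) t)⟩
  obtain ⟨x, x', y, y', j, hN⟩ := C2.exJ
  have f := hA.forest j hN (insert_nonempty _ _)
  rw [C2.cZ, E_insert hA.symm hA.irr n, E_insert hA.symm hA.irr hZ', dg_insert hZ', if_pos ha] at f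
  have := C.eZ
  omega

lemma Ctx.defect (hk : k = m + 1) (ht : t ∈ S) (hX : t ∉ X) (hY : t ∉ Y) (hZ : t ∉ Z)
    (h : dg A X t = 1) : ∃ w ∈ X, ∃ s ∈ Z, A t w ∧ (∀ v ∈ S, v ∉ X → v ≠ t → v ≠ s → A t v) ∧
      (∀ p ∈ Z, p ≠ s → A s p) ∧ ∀ a ∈ Z.erase s, ∀ b ∈ Z.erase s, ¬ A a b := by
  have hA := C.adm
  have hm := C.hm
  have cZ := C.cZ
  have eZ := C.eZ
  obtain ⟨w, hw, tw⟩ : ∃ w ∈ X, A t w := by
    by_contra hn
    push Not at hn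
    have := dg_zero.2 hn
    omega
  obtain ⟨s, hs⟩ := dg_one (r := co A) (S := S \ X) (v := t) (by
    have e1 := dg_out (A := A) hX
    have e2 := C.hd t ht
    rw [← union_sdiff_of_subset C.sX, dg_union disjoint_sdiff] at e2
    have := C.cX
    omega) t
  have hs' : ∀ v ∈ S, v ∉ X → v ≠ t → v ≠ s → A t v := fun v h1 h2 h3 h4 =>
    co_not (hs v (mem_sdiff.2 ⟨h1, h2⟩) h4) h3.symm
  obtain ⟨y, hy, y', hy', n, ys, ys'⟩ := two_ne (S := Y) (C.cY ▸ hm) s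
  have tY : ∀ y ∈ Y, y ≠ s → A t y := fun y hy ys =>
    hs' y (C.sY hy) (fun e => hA.irr _ (C.jXY _ e _ hy)) (fun e => hY (e ▸ hy)) ys
  have tZ : ∀ y ∈ Z.erase s, A t y := fun y hy =>
    hs' y (C.sZ (mem_of_mem_erase hy)) (fun e => hA.irr _ (C.jXZ _ e _ (mem_of_mem_erase hy)))
      (fun e => hZ (e ▸ mem_of_mem_erase hy)) (ne_of_mem_erase hy)
  have j : J A t w y y' := ⟨hA.ne tw, n, tY y hy ys, tY y' hy' ys', C.jXY _ hw _ hy, C.jXY _ hw _ hy'⟩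
  have hN : ∀ p ∈ Z.erase s, N A t w y y' p := fun p hp => ⟨tZ p hp,
    C.jXZ _ hw _ (mem_of_mem_erase hp), C.jYZ _ hy _ (mem_of_mem_erase hp),
    C.jYZ _ hy' _ (mem_of_mem_erase hp)⟩
  have p3 : ∀ b ∈ Z.erase s, dg A (Z.erase s) b ≤ 1 := fun b hb => by
    by_contra hn
    obtain ⟨a, ha, c, hc, ac, h1, h2⟩ := dg_two.1 (not_le.1 hn)
    exact hA.k7 (x := a) (x' := c) (y := y) (y' := y') (a := b) (b := t) (c := w)
      ⟨ac, n, hA.symm (hN a ha).e3, hA.symm (hN a ha).e4, hA.symm (hN c hc).e3,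
        hA.symm (hN c hc).e4⟩ ⟨hA.symm h1, hA.symm h2, (hN b hb).e3, (hN b hb).e4⟩
      ⟨hA.symm (hN a ha).e1, hA.symm (hN c hc).e1, hA.symm j.e1, hA.symm j.e2⟩
      ⟨hA.symm (hN a ha).e2, hA.symm (hN c hc).e2, hA.symm j.e3, hA.symm j.e4⟩
      (hA.symm (hN b hb).e1) (hA.symm (hN b hb).e2) tw
  have sZ : E A (Z.erase s) ≤ 2 → s ∈ Z := fun h => by
    by_contra hn
    rw [erase_eq_of_notMem hn] at h
    omega
  by_cases h0 : ∀ a ∈ Z.erase s, ∀ b ∈ Z.erase s, ¬ A a b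
  · have e0 := E_zero.2 h0
    have sZ := sZ (by omega)
    have e1 := E_erase hA.symm hA.irr sZ
    have e2 := hA.dg_in sZ
    exact ⟨w, hw, s, sZ, tw, hs', fun p hp ps => co_not (dg_zero.1 (by omega) p hp) ps.symm, h0⟩
  exfalso
  push Not at h0
  obtain ⟨b, hb, c, hc, bc⟩ := h0
  have uniq : ∀ b ∈ Z.erase s, ∀ c ∈ Z.erase s, ∀ d ∈ Z.erase s, A b c → A b d → c = d :=
    fun b hb c hc d hd h1 h2 => by
      by_contra hn
      have := dg_two.2 ⟨c, hc, d, hd, hn, h1, h2⟩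
      have := p3 b hb
      omega
  have e0 : E A ((Z.erase s).erase b) = 0 := E_zero.2 fun d hd e he de => by
    have db := ne_of_mem_erase hd
    have eb := ne_of_mem_erase he
    have hd := mem_of_mem_erase hd
    have he := mem_of_mem_erase he
    exact hA.u2 j tw (hN b hb) (hN d hd) (hN c hc) (hN e he) bc de db.symm
      (fun h => eb (uniq d hd e he b hb de (h ▸ hA.symm bc)))
      (fun h => db (uniq c hc d hd b hb (h ▸ hA.symm de) (hA.symm bc))) eb.symm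
  have e1 := E_erase hA.symm hA.irr hb
  have e2 := p3 b hb
  have sZ := sZ (by omega)
  have e3 := E_erase hA.symm hA.irr sZ
  have e4 := hA.dg_in sZ
  obtain ⟨u, hu⟩ := dg_one (r := co A) (S := Z) (v := s) (by omega) s
  have hu' : ∀ p ∈ Z.erase s, p ≠ u → A s p := fun p hp pu =>
    co_not (hu p (mem_of_mem_erase hp) pu) (ne_of_mem_erase hp).symm
  obtain ⟨w', hw', ww⟩ := exists_mem_ne (s := X) (by rw [C.cX]; omega) w
  have key : ∀ b ∈ Z.erase s, u ∈ Z.erase s → ¬ A u b := fun b hb hu ub => by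
    obtain ⟨l, hl, lb⟩ := exists_mem_ne (s := (Z.erase s).erase u)
      (by rw [card_erase_of_mem hu, card_erase_of_mem sZ]; omega) b
    have lu := ne_of_mem_erase hl
    have hl := mem_of_mem_erase hl
    have mu := mem_of_mem_erase hu
    have ml := mem_of_mem_erase hl
    have mb := mem_of_mem_erase hb
    refine hA.f6 (g := w) (x := w) (a := w') (b := t) (c := s) (d := u) (e := l) (f := b) n
      ?_ ?_ ?_ ?_ ?_ ub ww.symm (fun e => hX (e ▸ hw')) (fun e => hZ (e ▸ sZ))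
      (ne_of_mem_erase hu).symm lu.symm lb
    all_goals
      simp only [List.mem_cons, List.not_mem_nil, or_false, forall_eq_or_imp, forall_eq]
    · exact ⟨⟨hA.symm j.e3, hA.symm j.e4⟩,
        ⟨hA.symm (C.jXY _ hw' _ hy), hA.symm (C.jXY _ hw' _ hy')⟩, ⟨hA.symm j.e1, hA.symm j.e2⟩,
        ⟨C.jYZ _ hy _ sZ, C.jYZ _ hy' _ sZ⟩, ⟨C.jYZ _ hy _ mu, C.jYZ _ hy' _ mu⟩,
        ⟨C.jYZ _ hy _ ml, C.jYZ _ hy' _ ml⟩, C.jYZ _ hy _ mb, C.jYZ _ hy' _ mb⟩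
    · exact ⟨hA.symm tw, C.jXZ _ hw _ sZ, C.jXZ _ hw _ mu, C.jXZ _ hw _ ml, C.jXZ _ hw _ mb⟩
    · exact ⟨C.jXZ _ hw' _ sZ, C.jXZ _ hw' _ mu, C.jXZ _ hw' _ ml, C.jXZ _ hw' _ mb⟩
    · exact ⟨tZ _ hu, tZ _ hl, tZ _ hb⟩
    · exact ⟨hu' _ hl lu, hu' _ hb (hA.ne ub).symm⟩
  by_cases bu : b = u
  · exact key c hc (bu ▸ hb) (bu ▸ bc)
  by_cases cu : c = u
  · exact key b hb (cu ▸ hc) (cu ▸ hA.symm bc)
  obtain ⟨x, x', y, y', j, hN⟩ := C.exJ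
  exact hA.k7 j (hN s sZ) (hN b (mem_of_mem_erase hb)) (hN c (mem_of_mem_erase hc))
    (hu' b hb bu) (hu' c hc cu) bc

lemma Ctx.good (hX : t ∉ X) (h : dg A X t = 0) :
    (insert t X).card = m + 1 ∧ ∀ a ∈ insert t X, ∀ b ∈ insert t X, ¬ A a b := by
  have h := dg_zero.1 h
  refine ⟨by rw [card_insert_of_notMem hX, C.cX], ?_⟩
  simp only [forall_mem_insert]
  exact ⟨⟨C.adm.irr _, h⟩, fun a ha => ⟨fun e => h a ha (C.adm.symm e), C.qX a ha⟩⟩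

lemma Ctx.mixed (hk : k = m + 1) (ht : t ∈ S) (ht' : t' ∈ S) (hX : t ∉ X) (hY : t ∉ Y)
    (hZ : t ∉ Z) (hY' : t' ∉ Y) (hZ' : t' ∉ Z) (h : dg A X t = 1) (h' : dg A Y t' = 0) :
    Two A S (m + 1) := by
  obtain ⟨w, -, s, hs, -, -, -, q⟩ := C.defect hk ht hX hY hZ h
  obtain ⟨p1, p2⟩ := C.swap.good hY' h'
  refine ⟨_, insert_subset ht' C.sY, _, (erase_subset s Z).trans C.sZ, ?_, p1, ?_, p2, q⟩
  · exact disjoint_of_subset_right (erase_subset _ _)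
      (disjoint_insert_left.2 ⟨hZ', C.adm.disj C.jYZ⟩)
  · rw [card_erase_of_mem hs, C.cZ, hk]; rfl

lemma Ctx.fin (hk : k = m + 1) (ht : t ∈ S) (ht' : t' ∈ S) (hX : t ∉ X) (hY : t ∉ Y) (hZ : t ∉ Z)
    (hX' : t' ∉ X) (hY' : t' ∉ Y) (hZ' : t' ∉ Z) (ha : A t t') (h : dg A X t ≤ 1)
    (h' : dg A Y t' ≤ 1) : Two A S (m + 1) := by
  have hA := C.adm
  have hm := C.hm
  rcases Nat.le_one_iff_eq_zero_or_eq_one.1 h with h | h <;>
    rcases Nat.le_one_iff_eq_zero_or_eq_one.1 h' with h' | h'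
  · obtain ⟨p1, p2⟩ := C.good hX h
    obtain ⟨q1, q2⟩ := C.swap.good hY' h'
    refine ⟨_, insert_subset ht C.sX, _, insert_subset ht' C.sY, ?_, p1, q1, p2, q2⟩
    simp [(hA.ne ha).symm, hY, hX', hA.disj C.jXY]
  · exact C.swap.mixed hk ht' ht hY' hX' hZ' hX hZ h' h
  · exact C.mixed hk ht ht' hX hY hZ hY' hZ' h h'
  exfalso
  obtain ⟨w, hw, s, hs, tw, p1, p2, -⟩ := C.defect hk ht hX hY hZ h
  obtain ⟨y, hy, s', hs', ty, q1, -, q3⟩ := C.swap.defect hk ht' hY' hX' hZ' h'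
  have cZ := C.cZ
  obtain rfl : s = s' := by
    by_contra hn
    obtain ⟨p, hp, ps⟩ := exists_mem_ne (s := Z.erase s') (by rw [card_erase_of_mem hs']; omega) s
    exact q3 s (mem_erase.2 ⟨hn, hs⟩) p hp (p2 p (mem_of_mem_erase hp) ps)
  obtain ⟨w', hw', ww⟩ := exists_mem_ne (s := X) (by rw [C.cX]; omega) w
  obtain ⟨y', hy', yy⟩ := exists_mem_ne (s := Y) (by rw [C.cY]; omega) y
  obtain ⟨p, hp, p', hp', n, ps, ps'⟩ := two_ne (S := Z) (by omega) s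
  have tY : ∀ y ∈ Y, A t y := fun y hy => p1 y (C.sY hy) (fun e => hA.irr _ (C.jXY _ e _ hy))
    (fun e => hY (e ▸ hy)) (hA.ne (C.jYZ _ hy _ hs))
  have tX : ∀ y ∈ X, A y t' := fun y hy => hA.symm (q1 y (C.sX hy)
    (fun e => hA.irr _ (C.jXY _ hy _ e)) (fun e => hX' (e ▸ hy)) (hA.ne (C.jXZ _ hy _ hs)))
  have tZ : ∀ p ∈ Z, p ≠ s → A p w ∧ A p w' ∧ A p t ∧ A p s ∧ A p t' ∧ A p y' ∧ A p y :=
    fun p hp ps => ⟨hA.symm (C.jXZ _ hw _ hp), hA.symm (C.jXZ _ hw' _ hp),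
      hA.symm (p1 p (C.sZ hp) (fun e => hA.irr _ (C.jXZ _ e _ hp)) (fun e => hZ (e ▸ hp)) ps),
      hA.symm (p2 p hp ps),
      hA.symm (q1 p (C.sZ hp) (fun e => hA.irr _ (C.jYZ _ e _ hp)) (fun e => hZ' (e ▸ hp)) ps),
      hA.symm (C.jYZ _ hy' _ hp), hA.symm (C.jYZ _ hy _ hp)⟩
  have a1 := tZ p hp ps
  have a2 := tZ p' hp' ps'
  refine hA.f6 (g := w) (x := w) (a := w') (b := t) (c := s) (d := t') (e := y') (f := y) n
    ?_ ?_ ?_ ?_ ?_ ty ww.symm (fun e => hX (e ▸ hw')) (fun e => hZ (e ▸ hs))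
    (fun e => hZ' (e ▸ hs)) (fun e => hY' (e ▸ hy')) yy
  all_goals
    simp only [List.mem_cons, List.not_mem_nil, or_false, forall_eq_or_imp, forall_eq]
  · tauto
  · exact ⟨hA.symm tw, C.jXZ _ hw _ hs, tX _ hw, C.jXY _ hw _ hy', C.jXY _ hw _ hy⟩
  · exact ⟨C.jXZ _ hw' _ hs, tX _ hw', C.jXY _ hw' _ hy', C.jXY _ hw' _ hy⟩
  · exact ⟨ha, tY _ hy', tY _ hy⟩
  · exact ⟨hA.symm (C.jYZ _ hy' _ hs), hA.symm (C.jYZ _ hy _ hs)⟩

lemma Ctx.step (hk : k = m) {T : Finset V} (hT : 3 ≤ T.card)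
    (h1 : ∀ t ∈ T, t ∈ S ∧ t ∉ X ∧ t ∉ Y ∧ t ∉ Z) (h2 : ∀ t ∈ T, ∀ t' ∈ T, t ≠ t' → A t t') :
    Two A S (m + 1) := by
  have hx : ∀ t ∈ T, ∀ t' ∈ T, dg A X t ≤ 1 → dg A X t' ≤ 1 → t = t' := fun t ht t' ht' p q => by
    by_contra hn
    exact C.twoX (h1 t ht).1 (h1 t' ht').1 (h1 t ht).2.1 (h1 t' ht').2.1 hn p q
  have hy : ∀ t ∈ T, ∀ t' ∈ T, dg A Y t ≤ 1 → dg A Y t' ≤ 1 → t = t' := fun t ht t' ht' p q => by
    by_contra hn
    exact C.swap.twoX (h1 t ht).1 (h1 t' ht').1 (h1 t ht).2.2.1 (h1 t' ht').2.2.1 hn p q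
  have ty := fun t ht => C.typeZ (t := t) hk (h1 t ht).1 (h1 t ht).2.2.2 (h1 t ht).2.1 (h1 t ht).2.2.1
  have hz : ∀ t ∈ T, ∀ t' ∈ T, 2 ≤ dg A X t → 2 ≤ dg A Y t → 2 ≤ dg A X t' → 2 ≤ dg A Y t' →
      t = t' := fun t ht t' ht' p q p' q' => by
    by_contra hn
    exact C.twoZ (h1 t ht).1 (h1 t' ht').1 (h1 t ht).2.2.2 (h1 t' ht').2.2.2 (h2 t ht t' ht' hn)
      (ty t ht p q) (ty t' ht' p' q')
  have : ∃ a ∈ T, ∃ b ∈ T, ∃ c ∈ T, a ≠ b ∧ a ≠ c ∧ b ≠ c ∧ dg A X a ≤ 1 ∧ dg A Y b ≤ 1 ∧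
      2 ≤ dg A X c ∧ 2 ≤ dg A Y c := by
    obtain ⟨a, b, c, ha, hb, hc, n1, n2, n3⟩ := two_lt_card_iff.1 hT
    have x1 := hx a ha b hb
    have x2 := hx a ha c hc
    have x3 := hx b hb c hc
    have y1 := hy a ha b hb
    have y2 := hy a ha c hc
    have y3 := hy b hb c hc
    have z1 := hz a ha b hb
    have z2 := hz a ha c hc
    have z3 := hz b hb c hc
    by_contra hn
    push Not at hn
    have p1 := hn a ha b hb c hc n1 n2 n3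
    have p2 := hn a ha c hc b hb n2 n1 n3.symm
    have p3 := hn b hb a ha c hc n1.symm n3 n2
    have p4 := hn b hb c hc a ha n3 n1.symm n2.symm
    have p5 := hn c hc a ha b hb n2.symm n3.symm n1
    have p6 := hn c hc b hb a ha n3.symm n2.symm n1.symm
    simp only [n1, n2, n3, imp_false] at x1 x2 x3 y1 y2 y3 z1 z2 z3
    omega
  obtain ⟨a, ha, b, hb, c, hc, n1, n2, n3, p1, p2, p3, p4⟩ := this
  exact (C.ins (h1 c hc).1 (h1 c hc).2.2.2 (ty c hc p3 p4)).fin (by rw [hk]) (h1 a ha).1 (h1 b hb).1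
    (h1 a ha).2.1 (h1 a ha).2.2.1 (by simp [n2, (h1 a ha).2.2.2]) (h1 b hb).2.1 (h1 b hb).2.2.1
    (by simp [n3, (h1 b hb).2.2.2]) (h2 a ha b hb n1) p1 p2

end Pool.Agent.P.MP_61d55c_co.Ex
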