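import Mathlib
import Pool.Agent.P.MP_61d55c_co.Ex.Step
import Pool.Agent.P.MP_61d55c_co.Ex.CG10

/-! The extremal numbers. -/

set_option autoImplicit false

namespace Pool.Agent.P.MP_61d55c_co.Ex

open Finset Classical

variable {V : Type*} {A : V → V → Prop} (hA : Adm A) {S : Finset V} {j : ℕ}

lemma dg_erase' {r : V → V → Prop} {v w : V} (h : ¬ r v w) : dg r (S.erase w) v = dg r S v := by
  unfold dg
  congr 1
  ext u
  simp only [mem_filter, mem_erase]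
  exact ⟨fun h => ⟨h.1.2, h.2⟩, fun e => ⟨⟨fun e' => h (e' ▸ e.2), e.1⟩, e.2⟩⟩

/-- bound for `3 j + 1` points -/
def B1 (A : V → V → Prop) (j : ℕ) : Prop :=
  ∀ S : Finset V, S.card = 3 * j + 1 → 3 * (j * j) ≤ E (co A) S + 3 * j

/-- bound for `3 j + 2` points -/
def B2 (A : V → V → Prop) (j : ℕ) : Prop :=
  ∀ S : Finset V, S.card = 3 * j + 2 → 3 * (j * j) ≤ E (co A) S + j

/-- bound for `3 j + 3` points -/
def B3 (A : V → V → Prop) (j : ℕ) : Prop :=
  ∀ S : Finset V, S.card = 3 * j + 3 → 3 * (j * j) + j ≤ E (co A) S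

/-- structure of the extremal graphs on `3 j + 1` points -/
def U (A : V → V → Prop) (j : ℕ) : Prop :=
  ∀ S : Finset V, S.card = 3 * j + 1 → (∀ v ∈ S, dg (co A) S v + 1 ≤ j) →
    E (co A) S + 3 * j ≤ 3 * (j * j) → Two A S j

include hA

lemma Adm.edge6 (h : 6 ≤ S.card) : ∃ a ∈ S, ∃ b ∈ S, co A a b := by
  by_contra hn
  push Not at hn
  obtain ⟨v, hv⟩ := card_pos.1 (by omega : 0 < S.card)
  obtain ⟨f, -, f1, f2, -⟩ := bfs A hv 5 h
  refine hA.free 0 (by decide) f fun b hb a ha => ?_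
  change b < 6 at hb
  have := f2 b (by omega) a ha
  exact ⟨fun _ => co_not (hn _ (f1 a (by omega)) _ (f1 b (by omega))) this, fun _ => this⟩

lemma Adm.b6 (h : 6 ≤ S.card) : 2 ≤ E (co A) S := by
  obtain ⟨a, ha, b, hb, e⟩ := hA.edge6 h
  obtain ⟨k, hk⟩ := E_even hA.cs co_irr S
  have : E (co A) S ≠ 0 := fun h => E_zero.1 h a ha b hb e
  omega

lemma Adm.two2 (h : 7 ≤ S.card) (hd : ∀ v ∈ S, dg (co A) S v + 1 ≤ 2) : Two A S 2 := by
  obtain ⟨a, ha, a', ha', e⟩ := hA.edge6 (S := S) (by omega)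
  obtain ⟨b, hb, b', hb', e'⟩ := hA.edge6 (S := S.erase a) (by rw [card_erase_of_mem ha]; omega)
  have key : ∀ b ∈ S.erase a, ¬ co A a' b := fun b hb h => by
    have := dg_two.2 ⟨a, ha, b, mem_of_mem_erase hb, (ne_of_mem_erase hb).symm, hA.cs e, h⟩
    have := hd a' ha'
    omega
  have q : ∀ {a b}, co A a b → ∀ x ∈ ({a, b} : Finset V), ∀ y ∈ ({a, b} : Finset V), ¬ A x y := by
    intro a b h
    simp only [mem_insert, mem_singleton, forall_eq_or_imp, forall_eq]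
    exact ⟨⟨hA.irr _, h.2⟩, (hA.cs h).2, hA.irr _⟩
  refine ⟨{a, a'}, ?_, {b, b'}, ?_, ?_, card_pair e.1, card_pair e'.1, q e, q e'⟩
  · simp [insert_subset_iff, ha, ha']
  · simp [insert_subset_iff, mem_of_mem_erase hb, mem_of_mem_erase hb']
  · simp only [disjoint_insert_left, disjoint_singleton_left, mem_insert, mem_singleton, not_or]
    exact ⟨⟨(ne_of_mem_erase hb).symm, (ne_of_mem_erase hb').symm⟩,
      fun h => key b' hb' (h ▸ e'), fun h => key b hb (h ▸ hA.cs e')⟩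

lemma Adm.comp {X : Finset V} (hX : X ⊆ S) (cX : X.card = j) (qX : ∀ a ∈ X, ∀ b ∈ X, ¬ A a b)
    (hd : ∀ v ∈ S, dg (co A) S v + 1 ≤ j) : ∀ x ∈ X, ∀ v ∈ S, v ∉ X → A x v := by
  intro x hx v hv hn
  refine co_not (fun h => ?_) fun e => hn (e ▸ hx)
  have p1 := dg_mono (r := co A) (insert_subset hv hX) x
  rw [dg_insert hn, if_pos h] at p1
  have p2 := hA.dg_in hx
  rw [dg_zero.2 (qX x hx)] at p2
  have := hd x (hX hx)
  omega

lemma Adm.split (h : Two A S j) (hd : ∀ v ∈ S, dg (co A) S v + 1 ≤ j) :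
    ∃ X ⊆ S, ∃ Y ⊆ S, ∃ Z ⊆ S, X.card = j ∧ Y.card = j ∧ Z.card + 2 * j = S.card ∧
      (∀ a ∈ X, ∀ b ∈ X, ¬ A a b) ∧ (∀ a ∈ Y, ∀ b ∈ Y, ¬ A a b) ∧ (∀ x ∈ X, ∀ y ∈ Y, A x y) ∧
      (∀ x ∈ X, ∀ z ∈ Z, A x z) ∧ (∀ y ∈ Y, ∀ z ∈ Z, A y z) ∧
      E (co A) Z + 2 * (j * j) ≤ E (co A) S + 2 * j := by
  obtain ⟨X, hX, Y, hY, d, cX, cY, qX, qY⟩ := h
  have pX := hA.comp hX cX qX hd
  have pY := hA.comp hY cY qY hd
  refine ⟨X, hX, Y, hY, S \ (X ∪ Y), sdiff_subset, cX, cY, ?_, qX, qY,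
    fun x hx y hy => pX x hx y (hY hy) (disjoint_right.1 d hy),
    fun x hx z hz => pX x hx z (mem_sdiff.1 hz).1 fun e => (mem_sdiff.1 hz).2 (mem_union_left _ e),
    fun x hx z hz => pY x hx z (mem_sdiff.1 hz).1 fun e => (mem_sdiff.1 hz).2 (mem_union_right _ e),
    ?_⟩
  · have := card_sdiff_add_card_eq_card (union_subset hX hY)
    rw [card_union_of_disjoint d] at this
    omega
  · have e1 := E_union (r := co A) (X := X ∪ Y) (Y := S \ (X ∪ Y)) disjoint_sdiff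
    rw [union_sdiff_of_subset (union_subset hX hY)] at e1
    have e2 := E_union (r := co A) d
    have e3 := hA.E_add X
    have e4 := hA.E_add Y
    rw [E_zero.2 qX, cX] at e3
    rw [E_zero.2 qY, cY] at e4
    omega

omit hA in
lemma exJ {X Y Z : Finset V} (cX : 2 ≤ X.card) (cY : 2 ≤ Y.card) (jXY : ∀ x ∈ X, ∀ y ∈ Y, A x y)
    (jXZ : ∀ x ∈ X, ∀ z ∈ Z, A x z) (jYZ : ∀ y ∈ Y, ∀ z ∈ Z, A y z) :
    ∃ x x' y y', J A x x' y y' ∧ ∀ z ∈ Z, N A x x' y y' z := by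
  obtain ⟨x, hx, x', hx', n1⟩ := two_mem cX
  obtain ⟨y, hy, y', hy', n2⟩ := two_mem cY
  exact ⟨x, x', y, y', ⟨n1, n2, jXY _ hx _ hy, jXY _ hx _ hy', jXY _ hx' _ hy, jXY _ hx' _ hy'⟩,
    fun w hw => ⟨jXZ _ hx _ hw, jXZ _ hx' _ hw, jYZ _ hy _ hw, jYZ _ hy' _ hw⟩⟩

lemma Adm.b7 : B1 A 2 := by
  intro S h
  by_cases hd : ∀ v ∈ S, dg (co A) S v + 1 ≤ 2
  · obtain ⟨X, -, Y, -, Z, -, cX, cY, cZ, -, -, p1, p2, p3, e⟩ :=
      hA.split (hA.two2 (by omega) hd) hd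
    obtain ⟨x, x', y, y', k, hN⟩ := exJ cX.ge cY.ge p1 p2 p3
    have e1 := hA.forest k hN (card_pos.1 (by omega))
    have e2 := hA.E_add Z
    rw [show Z.card = 3 by omega] at e1 e2
    omega
  · push Not at hd
    obtain ⟨v, hv, h'⟩ := hd
    have e1 := E_erase hA.cs co_irr hv
    have e2 := hA.b6 (S := S.erase v) (by rw [card_erase_of_mem hv]; omega)
    omega

lemma Adm.top {n : ℕ} (h : S.card = n + 1) : ∃ v ∈ S, (∀ w ∈ S, dg (co A) S w ≤ dg (co A) S v) ∧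
    (S.erase v).card = n ∧ E (co A) S = E (co A) (S.erase v) + 2 * dg (co A) S v ∧
    E (co A) S ≤ (n + 1) * dg (co A) S v := by
  obtain ⟨v, hv, h'⟩ := exists_max_image S (dg (co A) S) (card_pos.1 (by omega))
  exact ⟨v, hv, h', by rw [card_erase_of_mem hv]; omega, E_erase hA.cs co_irr hv, h ▸ E_le h'⟩

lemma Adm.b2 (hj : 2 ≤ j) (h1 : B1 A j) (hU : U A j) : B2 A j := by
  intro S h
  by_contra hn
  obtain ⟨v, hv, p1, p2, p3, p4⟩ := hA.top h
  have e1 := h1 _ p2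
  obtain ⟨k, hk⟩ := E_even hA.cs co_irr S
  obtain ⟨t, ht⟩ := Nat.even_mul_succ_self j
  rw [mul_add, mul_one] at ht
  have e2 : dg (co A) S v + 1 ≤ j := by omega
  have e3 : j ≤ dg (co A) S v + 1 := by
    by_contra h
    nlinarith
  have hd : ∀ w ∈ S, dg (co A) S w + 1 ≤ j := fun w hw => by have := p1 w hw; omega
  obtain ⟨X, hX, Y, hY, q⟩ := hU _ p2 (fun w hw => by
    have := hd w (mem_of_mem_erase hw)
    have := dg_mono (r := co A) (erase_subset v S) w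
    omega) (by omega)
  obtain ⟨X, -, Y, -, Z, hZ, cX, cY, cZ, -, -, q1, q2, q3, -⟩ := hA.split
    ⟨X, hX.trans (erase_subset _ _), Y, hY.trans (erase_subset _ _), q⟩ hd
  obtain ⟨x, x', y, y', k, hN⟩ := exJ (cX ▸ hj) (cY ▸ hj) q1 q2 q3
  obtain ⟨w, hw, e⟩ := hA.leaf k hN (card_pos.1 (by omega))
  have := hA.dg_in hw
  have := dg_mono (r := co A) hZ w
  have := hd w (hZ hw)
  omega

lemma Adm.b3 (h2 : B2 A j) : B3 A j := by
  intro S h
  by_contra hn
  obtain ⟨v, hv, p1, p2, p3, p4⟩ := hA.top h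
  have e1 := h2 _ p2
  have e2 : dg (co A) S v + 1 ≤ j := by omega
  nlinarith

lemma Adm.b1 (h3 : B3 A j) : B1 A (j + 1) := by
  intro S h
  by_contra hn
  obtain ⟨v, hv, p1, p2, p3, p4⟩ := hA.top (n := 3 * j + 3) h
  have e1 := h3 _ p2
  have e2 : dg (co A) S v + 1 ≤ j := by nlinarith
  nlinarith

lemma Adm.u3 : U A 3 := by
  intro S h hd e
  obtain ⟨v, hv, h'⟩ : ∃ v ∈ S, dg (co A) S v ≤ 1 := by
    by_contra hn
    push Not at hn
    have : S.card * 2 ≤ E (co A) S := card_nsmul_le_sum S _ 2 hn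
    omega
  exact G10.ten hA (by omega) (fun v hv => by have := hd v hv; omega) hv h'

lemma Adm.ustep (hj : 2 ≤ j) (h3 : B3 A j) (hU : U A (j + 1)) (h1 : B1 A (j + 2)) :
    U A (j + 2) := by
  intro S h hd e
  have e0 := h1 S h
  have hd' : ∀ v ∈ S, dg (co A) S v ≤ j + 1 := fun v hv => by have := hd v hv; omega
  have nf : (S.filter fun v => dg (co A) S v ≤ j).card ≤ j + 1 := by
    have : ∑ v ∈ S, (dg (co A) S v + if dg (co A) S v ≤ j then 1 else 0) ≤ S.card * (j + 1) :=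
      sum_le_card_nsmul S _ _ fun v hv => by
        have := hd' v hv
        split_ifs <;> omega
    rw [sum_add_distrib, ← card_filter, h] at this
    change E (co A) S + _ ≤ _ at this
    nlinarith
  have pick : ∀ a ∈ S, ∀ b ∈ S, ∃ t ∈ S, dg (co A) S t = j + 1 ∧ A a t ∧ A b t := by
    intro a ha b hb
    obtain ⟨t, ht, hn⟩ := exists_mem_notMem_of_card_lt_card (t := S)
      (s := insert a (insert b ((S.filter fun v => dg (co A) S v ≤ j) ∪
        (S.filter (co A a) ∪ S.filter (co A b))))) (by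
      refine (card_insert_le _ _).trans_lt ?_
      refine (Nat.succ_le_succ (card_insert_le _ _)).trans_lt ?_
      have q1 := card_union_le (S.filter fun v => dg (co A) S v ≤ j)
        (S.filter (co A a) ∪ S.filter (co A b))
      have q2 := card_union_le (S.filter (co A a)) (S.filter (co A b))
      have q3 := hd' a ha
      have q4 := hd' b hb
      unfold dg at q3 q4
      omega)
    simp only [mem_insert, mem_union, mem_filter, ht, true_and, not_or] at hn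
    have := hd' t ht
    exact ⟨t, ht, by omega, co_not hn.2.2.2.1 (Ne.symm hn.1), co_not hn.2.2.2.2 (Ne.symm hn.2.1)⟩
  obtain ⟨v, hv⟩ := card_pos.1 (by omega : 0 < S.card)
  obtain ⟨a, ha, da, -⟩ := pick v hv v hv
  obtain ⟨b, hb, db, ab, -⟩ := pick a ha a ha
  obtain ⟨c, hc, dc, ac, bc⟩ := pick a ha b hb
  have hb' : b ∈ S.erase a := mem_erase.2 ⟨(hA.ne ab).symm, hb⟩
  have hc' : c ∈ (S.erase a).erase b :=
    mem_erase.2 ⟨(hA.ne bc).symm, mem_erase.2 ⟨(hA.ne ac).symm, hc⟩⟩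
  have e1 := E_erase hA.cs co_irr ha
  have e2 := E_erase hA.cs co_irr hb'
  have e3 := E_erase hA.cs co_irr hc'
  rw [dg_erase' fun h => h.2 (hA.symm ab)] at e2
  rw [dg_erase' fun h => h.2 (hA.symm bc), dg_erase' fun h => h.2 (hA.symm ac)] at e3
  have c3 : (((S.erase a).erase b).erase c).card = 3 * (j + 1) + 1 := by
    rw [card_erase_of_mem hc', card_erase_of_mem hb', card_erase_of_mem ha]; omega
  have sub : ∀ v ∈ ((S.erase a).erase b).erase c, v ∈ S ∧ v ∉ ({a, b, c} : Finset V) := by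
    simp only [mem_erase, mem_insert, mem_singleton]; tauto
  generalize ((S.erase a).erase b).erase c = S' at e3 c3 sub
  have e4 : E (co A) S' + 3 * (j + 1) ≤ 3 * ((j + 1) * (j + 1)) := by nlinarith
  have hd2 : ∀ v ∈ S', dg (co A) S' v + 1 ≤ j + 1 := fun v hv => by
    have q1 := E_erase hA.cs co_irr hv
    have q2 := h3 (S'.erase v) (by rw [card_erase_of_mem hv]; omega)
    nlinarith
  obtain ⟨X, hX, Y, hY, Z, hZ, cX, cY, cZ, qX, qY, p1, p2, p3, e5⟩ :=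
    hA.split (hU S' c3 hd2 e4) hd2
  have cZ' : Z.card = j + 1 + 1 := by omega
  have e6 := hA.E_add Z
  rw [cZ'] at e6
  refine Ctx.step (X := X) (Y := Y) (Z := Z) (T := {a, b, c}) ⟨hA, by omega, hd',
    fun v hv => (sub v (hX hv)).1, fun v hv => (sub v (hY hv)).1, fun v hv => (sub v (hZ hv)).1,
    cX, cY, cZ', qX, qY, p1, p2, p3, by nlinarith⟩ rfl
    (card_eq_three.2 ⟨_, _, _, hA.ne ab, hA.ne ac, hA.ne bc, rfl⟩).ge
    (fun t ht => ⟨?_, fun e => (sub t (hX e)).2 ht, fun e => (sub t (hY e)).2 ht,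
      fun e => (sub t (hZ e)).2 ht⟩) ?_
  · simp only [mem_insert, mem_singleton] at ht
    rcases ht with rfl | rfl | rfl <;> assumption
  · simp [ab, ac, bc, hA.symm ab, hA.symm ac, hA.symm bc]

lemma Adm.all (j : ℕ) : B3 A (j + 2) ∧ U A (j + 3) := by
  induction j with
  | zero => exact ⟨hA.b3 (hA.b2 le_rfl hA.b7 fun S h hd _ => hA.two2 (by omega) hd), hA.u3⟩
  | succ j ih =>
    have := hA.b3 (hA.b2 (by omega) (hA.b1 ih.1) ih.2)
    exact ⟨this, hA.ustep (by omega) ih.1 ih.2 (hA.b1 this)⟩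

theorem Adm.bound (h : 7 ≤ S.card) : E A S ≤ 2 * ((S.card + 2) * (S.card - 1) / 3) := by
  have a1 : ∀ j, B1 A (j + 2) := fun j => by
    cases j with
    | zero => exact hA.b7
    | succ j => exact hA.b1 (hA.all j).1
  have a2 : ∀ j, B2 A (j + 2) := fun j => by
    cases j with
    | zero => exact hA.b2 le_rfl hA.b7 fun S h hd _ => hA.two2 (by omega) hd
    | succ j => exact hA.b2 (by omega) (a1 _) (hA.all j).2
  have e := hA.E_add S
  obtain ⟨j, hj | hj | hj⟩ : ∃ j, S.card = 3 * (j + 2) + 1 ∨ S.card = 3 * (j + 2) + 2 ∨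
      S.card = 3 * (j + 2) + 3 := ⟨(S.card - 7) / 3, by omega⟩
  · have := a1 j S hj
    rw [hj] at e ⊢
    rw [show (3 * (j + 2) + 1 + 2) * (3 * (j + 2) + 1 - 1) = 9 * (j * j) + 45 * j + 54 by
      rw [Nat.add_sub_cancel]; ring]
    ring_nf at *
    omega
  · have := a2 j S hj
    rw [hj] at e ⊢
    rw [show (3 * (j + 2) + 2 + 2) * (3 * (j + 2) + 2 - 1) = 9 * (j * j) + 51 * j + 70 by
      rw [show 3 * (j + 2) + 2 - 1 = 3 * j + 7 by omega]; ring]
    ring_nf at *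
    omega
  · have := (hA.all j).1 S hj
    rw [hj] at e ⊢
    rw [show (3 * (j + 2) + 3 + 2) * (3 * (j + 2) + 3 - 1) = 9 * (j * j) + 57 * j + 88 by
      rw [show 3 * (j + 2) + 3 - 1 = 3 * j + 8 by omega]; ring]
    ring_nf at *
    omega

end Pool.Agent.P.MP_61d55c_co.Ex
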