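import Mathlib
import Pool.Agent.P.MP_61d55c_co.Main
import Pool.Agent.P.MP_61d55c_co.Ex.Bound
import Pool.Agent.P.MP_61d55c_co.Ex.CK6
import Pool.Agent.P.MP_61d55c_co.Ex.CK7
import Pool.Agent.P.MP_61d55c_co.Ex.CC4
import Pool.Agent.P.MP_61d55c_co.Ex.CU1
import Pool.Agent.P.MP_61d55c_co.Ex.CU2
import Pool.Agent.P.MP_61d55c_co.Ex.CF6
import Pool.Agent.P.MP_61d55c_co.Ex.CP5

/-! The upper bound for `e0 3 n`. -/

set_option autoImplicit false

namespace Pool.Agent.P.MP_61d55c_co.Ex

open Finset Matrix SimpleGraph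

lemma free_of {P : Set (EuclideanSpace ℝ (Fin 3))} {k GM : ℕ}
    (hs : ∀ a < k, eg k GM a a = false ∧ ∀ b < k, eg k GM a b = eg k GM b a)
    (hno : ∀ p, ¬ HG k GM p) : Free (apGraph P).Adj k GM := by
  intro g hg
  have inj : ∀ a < k, ∀ b < k, a ≠ b → (g a).1 ≠ (g b).1 := by
    have : ∀ b < k, ∀ a < b, g a ≠ g b := fun b hb a ha => by
      cases e : eg k GM a b
      · exact (hg b hb a ha).2 e
      · exact ((hg b hb a ha).1 e).ne
    intro a ha b hb n e
    rcases lt_or_gt_of_ne n with h | h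
    · exact this b hb a h (Subtype.ext e)
    · exact this a ha b h (Subtype.ext e.symm)
  refine hno (fun i => (g i).1.ofLp) fun a b e => ?_
  obtain ⟨ha, hb⟩ := eg_lt e
  have adj : (apGraph P).Adj (g a) (g b) := by
    rcases lt_trichotomy a b with h | rfl | h
    · exact (hg b hb a h).1 e
    · rw [(hs a ha).1] at e; exact Bool.noConfusion e
    · exact ((hg a ha b h).1 ((hs a ha).2 b hb ▸ e)).symm
  simp only [apGraph, fromRel_adj] at adj
  obtain ⟨-, -, f, -, p, q⟩ := adj.2.elim id IsAntipodal0.symm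
  obtain ⟨u, hu⟩ := exists_dot f
  simp only [hu] at p q
  exact ⟨u, fun z hz n => p _ (extremePoints_subset (g z).2) (inj z hz a ha n),
    fun z hz n => q _ (extremePoints_subset (g z).2) (inj z hz b hb n)⟩

lemma adm (P : Set (EuclideanSpace ℝ (Fin 3))) : Adm (apGraph P).Adj := by
  refine ⟨fun _ _ h => h.symm, fun _ => (apGraph P).irrefl, fun q hq => ?_⟩
  interval_cases q
  · exact free_of (by decide +kernel) K6.no
  · exact free_of (by decide +kernel) K7.no
  · exact free_of (by decide +kernel) C4.no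
  · exact free_of (by decide +kernel) U1.no
  · exact free_of (by decide +kernel) U2.no
  · exact free_of (by decide +kernel) F6.no
  · exact free_of (by decide +kernel) P5.no

lemma E_univ {V : Type*} [Fintype V] (G : SimpleGraph V) :
    E G.Adj univ = 2 * G.edgeSet.ncard := by
  classical
  rw [← coe_edgeFinset, Set.ncard_coe_finset, ← sum_degrees_eq_twice_card_edges]
  refine sum_congr rfl fun v _ => ?_
  rw [dg, ← card_neighborFinset_eq_degree, neighborFinset_eq_filter]

lemma upper_of {n k : ℕ} (h : ∀ (V : Type) (A : V → V → Prop), Adm A → ∀ S : Finset V, S.card = n →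
    E A S ≤ 2 * k) : e0 3 n ≤ k := by
  refine e0_le fun P h1 h2 => ?_
  have := h1.finite.fintype
  have := h _ _ (adm P) univ (by
    rw [← h2, ← Nat.card_coe_set_eq, Nat.card_eq_fintype_card, card_univ])
  rw [E_univ, ← pairCount_eq] at this
  omega

theorem upper7 {n : ℕ} (h : 7 ≤ n) : e0 3 n ≤ (n + 2) * (n - 1) / 3 :=
  upper_of fun _ _ hA _ hS => hS ▸ hA.bound (hS ▸ h)

theorem upper4 : e0 3 4 ≤ 6 := upper_of fun _ _ hA S hS => by
  have := hA.E_add S
  rw [hS] at this
  omega

theorem upper5 : e0 3 5 ≤ 10 := upper_of fun _ _ hA S hS => by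
  have := hA.E_add S
  rw [hS] at this
  omega

theorem upper6 : e0 3 6 ≤ 14 := upper_of fun _ _ hA S hS => by
  have := hA.E_add S
  have := hA.b6 hS.ge
  rw [hS] at *
  omega

end Pool.Agent.P.MP_61d55c_co.Ex
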