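import Mathlib
import Pool.Agent.P.MP_61d55c_co.Ex.Upper

/-! The lower bound for `e0 3 n`. -/

set_option autoImplicit false

namespace Pool.Agent.P.MP_61d55c_co.Ex

open Finset Matrix SimpleGraph Filter Topology

lemma lower4 {n : ℕ} [NeZero n] (G : SimpleGraph (Fin n)) (X : Fin n → Fin 3 → ℝ)
    (hG : ∀ x, ∃ y, G.Adj x y)
    (hX : ∀ x y, G.Adj x y → ∃ u : Fin 3 → ℝ,
      (∀ z, z ≠ x → u ⬝ᵥ X z < u ⬝ᵥ X x) ∧ ∀ z, z ≠ y → u ⬝ᵥ X y < u ⬝ᵥ X z)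
    {p p' q q' : Fin n} (n1 : p ≠ p') (n2 : q ≠ q') (a1 : G.Adj p q) (a2 : G.Adj p q')
    (a3 : G.Adj p' q) (a4 : G.Adj p' q') : E G.Adj univ ≤ 2 * e0 3 n := by
  rw [E_univ]
  refine Nat.mul_le_mul_left 2 (lower G X hG hX fun u hu => ?_)
  have sep : ∀ x y s t : Fin n, G.Adj x y → s ≠ x → t ≠ x → s ≠ y → t ≠ y →
      ∃ u, Sep u (X x) (X y) (X s) (X t) := fun x y s t h h1 h2 h3 h4 => by
    obtain ⟨u, p, q⟩ := hX x y h
    exact ⟨u, p _ h1, p _ h2, q _ h3, q _ h4⟩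
  obtain ⟨u1, h1⟩ := sep p q p' q' a1 n1.symm a2.ne' a3.ne n2.symm
  obtain ⟨u2, h2⟩ := sep p q' p' q a2 n1.symm a1.ne' a4.ne n2
  obtain ⟨u3, h3⟩ := sep p' q p q' a3 n1 a4.ne' a1.ne n2.symm
  obtain ⟨u4, h4⟩ := sep p' q' p q a4 n1 a3.ne' a2.ne n2
  exact eq_zero_of_Dt (Dt_ne_zero h1 h2 h3 h4) (hu _ _) (hu _ _) (hu _ _)

/-- the cluster of a point -/
def cl (x : ℕ) : Fin 4 := if x = 0 then 3 else ⟨x % 3, by omega⟩

lemma cl_ne {x y : ℕ} : cl x ≠ cl y ↔ (x = 0 ∧ y ≠ 0) ∨ (x ≠ 0 ∧ y = 0) ∨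
    (x ≠ 0 ∧ y ≠ 0 ∧ x % 3 ≠ y % 3) := by
  unfold cl
  split_ifs <;> simp_all [Fin.ext_iff] <;> omega

theorem four_sites (n : ℕ) : ∃ X : Fin n → Fin 3 → ℝ, ∀ x y : Fin n, cl x ≠ cl y →
    ∃ u : Fin 3 → ℝ, (∀ z, z ≠ x → u ⬝ᵥ X z < u ⬝ᵥ X x) ∧ ∀ z, z ≠ y → u ⬝ᵥ X y < u ⬝ᵥ X z := by
  let a : Fin 4 → Fin 3 → ℝ := ![![5, 0, 10], ![10, 5, 0], ![0, 10, 5], ![1, 1, 1]]
  let w : Fin 4 → Fin 3 → ℝ := ![![1, 0, 0], ![0, 1, 0], ![0, 0, 1], ![0, 0, 0]]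
  let c : Fin 4 → Fin 3 → ℝ := ![![0, 1, -1], ![-1, 0, 1], ![1, -1, 0], ![1, 1, 1]]
  have H : ∀ i j, i ≠ j → ∃ φ : Fin 3 → ℝ, φ ⬝ᵥ w i = 0 ∧ φ ⬝ᵥ w j = 0 ∧ φ ⬝ᵥ c i < 0 ∧
      0 < φ ⬝ᵥ c j ∧ (∀ k, k ≠ i → φ ⬝ᵥ a k < φ ⬝ᵥ a i) ∧ (∀ k, k ≠ j → φ ⬝ᵥ a j < φ ⬝ᵥ a k) ∧
      w i ⬝ᵥ w j = 0 := fun i j hij => by
    refine ⟨![![0, ![0, 0, 1], ![0, -1, 0], ![0, 1, 3]], ![![0, 0, -1], 0, ![1, 0, 0], ![3, 0, 1]],
      ![![0, 1, 0], ![-1, 0, 0], 0, ![1, 3, 0]], ![![0, -1, -3], ![-3, 0, -1], ![-1, -3, 0], 0]] i j,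
      ?_, ?_, ?_, ?_, fun k hk => ?_, fun k hk => ?_, ?_⟩
    all_goals try fin_cases k
    all_goals fin_cases i <;> fin_cases j <;>
      simp_all [a, w, c, dotProduct, Fin.sum_univ_three] <;> norm_num
  have hw : ∀ x : Fin n, ((x : ℕ) : ℝ) * (w (cl x) ⬝ᵥ w (cl x)) = (x : ℕ) := fun x => by
    by_cases h : (x : ℕ) = 0
    · simp [h]
    · have : cl x ≠ 3 := by
        have := (cl_ne (x := x) (y := 0)).2 (by omega)
        simpa [cl] using this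
      generalize cl x = i at this
      fin_cases i <;> simp_all [w, dotProduct, Fin.sum_univ_three]
  have hτ : Function.Injective fun x : Fin n => ((x : ℕ) : ℝ) :=
    Nat.cast_injective.comp Fin.val_injective
  have : ∀ᶠ ε in 𝓝[>] (0 : ℝ), ∀ x y : Fin n, cl x ≠ cl y → ∃ u : Fin 3 → ℝ,
      (∀ z, z ≠ x → u ⬝ᵥ arc (fun x : Fin n => cl x) (fun x => ((x : ℕ) : ℝ)) a w c ε z <
        u ⬝ᵥ arc (fun x : Fin n => cl x) (fun x => ((x : ℕ) : ℝ)) a w c ε x) ∧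
      ∀ z, z ≠ y → u ⬝ᵥ arc (fun x : Fin n => cl x) (fun x => ((x : ℕ) : ℝ)) a w c ε y <
        u ⬝ᵥ arc (fun x : Fin n => cl x) (fun x => ((x : ℕ) : ℝ)) a w c ε z := by
    refine eventually_all.2 fun x => eventually_all.2 fun y => ?_
    by_cases hxy : cl x = cl y
    · exact Eventually.of_forall fun _ h => absurd hxy h
    obtain ⟨φ, h1, h2, h3, h4, h5, h6, h7⟩ := H _ _ hxy
    obtain ⟨ψ, p1, p2⟩ : ∃ ψ : Fin 3 → ℝ, ψ ⬝ᵥ w (cl x) = -2 * (x : ℕ) * (φ ⬝ᵥ c (cl x)) ∧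
        ψ ⬝ᵥ w (cl y) = -2 * (y : ℕ) * (φ ⬝ᵥ c (cl y)) := by
      refine ⟨(-2 * (x : ℕ) * (φ ⬝ᵥ c (cl x))) • w (cl x) +
        (-2 * (y : ℕ) * (φ ⬝ᵥ c (cl y))) • w (cl y), ?_, ?_⟩
      · rw [add_dotProduct, smul_dotProduct, smul_dotProduct, dotProduct_comm (w (cl y)), h7]
        simp only [smul_eq_mul]
        linear_combination (-2 * (φ ⬝ᵥ c (cl x))) * hw x
      · rw [add_dotProduct, smul_dotProduct, smul_dotProduct, h7]
        simp only [smul_eq_mul]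
        linear_combination (-2 * (φ ⬝ᵥ c (cl y))) * hw y
    have e1 := ev_max (κ := fun x : Fin n => cl x) hτ h1 h3 h5 p1
    have e2 := ev_max (κ := fun x : Fin n => cl x) (a := a) (w := w) (c := c) (x := y) (φ := -φ)
      (ψ := -ψ) hτ (by simp [h2]) (by simpa using h4) (fun k hk => by simpa using h6 k hk)
      (by simp [p2])
    filter_upwards [e1, e2] with ε q1 q2 _
    refine ⟨φ + ε • ψ, q1, fun z hz => ?_⟩
    have := q2 z hz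
    rw [smul_neg, ← neg_add, neg_dotProduct, neg_dotProduct] at this
    linarith
  exact ⟨_, this.exists.choose_spec⟩

lemma dg_cl {v : ℕ} (hv : v ≠ 0) (n : ℕ) :
    dg (fun x y => cl x ≠ cl y) (range n) v + (n + 1 - (v + 2) % 3) / 3 = n := by
  induction n with
  | zero => rw [show dg (fun x y => cl x ≠ cl y) (range 0) v = 0 from rfl]; omega
  | succ n ih =>
    have := dg_insert (r := fun x y => cl x ≠ cl y) (S := range n) notMem_range_self v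
    have e := Eq.trans (a := dg (fun x y => cl x ≠ cl y) (range (n + 1)) v)
      (congrArg (fun S => dg _ S v) (by ext x; simp only [mem_range, mem_insert]; omega)) this
    rw [e]
    split_ifs with h <;> rw [cl_ne] at h <;> omega

lemma E_cl (m : ℕ) : 6 * m + 2 * (m * m) ≤
    3 * E (fun x y => cl x ≠ cl y) (range (m + 1)) + if m % 3 = 0 then 0 else 2 := by
  induction m with
  | zero => simp
  | succ m ih =>
    have := E_insert (r := fun x y => cl x ≠ cl y) (S := range (m + 1)) (fun _ _ h => h.symm)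
      (fun _ h => h rfl) notMem_range_self
    have e := Eq.trans (a := E (fun x y => cl x ≠ cl y) (range (m + 1 + 1)))
      (congrArg (E _) (by ext x; simp only [mem_range, mem_insert]; omega)) this
    have := dg_cl (v := m + 1) (by omega) (m + 1)
    rw [e, show (m + 1) * (m + 1) = m * m + 2 * m + 1 by ring]
    obtain ⟨t, h | h | h⟩ : ∃ t, m = 3 * t ∨ m = 3 * t + 1 ∨ m = 3 * t + 2 := ⟨m / 3, by omega⟩
    · rw [show (m + 1 + 1 - (m + 1 + 2) % 3) / 3 = t by omega] at this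
      split_ifs at ih ⊢ <;> omega
    · rw [show (m + 1 + 1 - (m + 1 + 2) % 3) / 3 = t by omega] at this
      split_ifs at ih ⊢ <;> omega
    · rw [show (m + 1 + 1 - (m + 1 + 2) % 3) / 3 = t by omega] at this
      split_ifs at ih ⊢ <;> omega

lemma E_fin (r : ℕ → ℕ → Prop) (n : ℕ) : E (fun x y : Fin n => r x y) univ = E r (range n) := by
  simp only [E, dg, card_filter]
  rw [← Fin.sum_univ_eq_sum_range]
  exact sum_congr rfl fun x _ => Fin.sum_univ_eq_sum_range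
    (fun y => @ite _ (r x y) (Classical.propDecidable _) 1 0) n

theorem lowerN {n : ℕ} (hn : 4 ≤ n) : (n + 2) * (n - 1) / 3 ≤ e0 3 n := by
  obtain ⟨m, rfl⟩ : ∃ m, n = m + 1 := ⟨n - 1, by omega⟩
  obtain ⟨X, hX⟩ := four_sites (m + 1)
  have := lower4 ⟨fun x y : Fin (m + 1) => cl x ≠ cl y, ⟨fun _ _ h => h.symm⟩, ⟨fun _ h => h rfl⟩⟩ X
    (fun x => by
      by_cases h : (x : ℕ) = 0
      · exact ⟨⟨1, by omega⟩, cl_ne.2 (Or.inl ⟨h, one_ne_zero⟩)⟩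
      · exact ⟨0, cl_ne.2 (Or.inr (Or.inl ⟨h, rfl⟩))⟩) hX
    (p := ⟨0, by omega⟩) (p' := ⟨1, by omega⟩) (q := ⟨2, by omega⟩) (q' := ⟨3, by omega⟩)
    (by simp) (by simp) (cl_ne.2 (by simp)) (cl_ne.2 (by simp)) (cl_ne.2 (by simp))
    (cl_ne.2 (by simp))
  have e := E_fin (fun x y => cl x ≠ cl y) (m + 1)
  have := E_cl m
  rw [show (m + 1 + 2) * (m + 1 - 1) = m * m + 3 * m by rw [Nat.add_sub_cancel]; ring]
  dsimp only at *
  split_ifs at this <;> omega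

lemma lowerZ {n : ℕ} [NeZero n] (G : SimpleGraph (Fin n)) [DecidableRel G.Adj]
    (X : Fin n → Fin 3 → ℤ) (u : Fin n → Fin n → Fin 3 → ℤ) (hG : ∀ x, ∃ y, G.Adj x y)
    (hX : ∀ x y, G.Adj x y →
      (∀ z, z ≠ x → u x y ⬝ᵥ X z < u x y ⬝ᵥ X x) ∧ ∀ z, z ≠ y → u x y ⬝ᵥ X y < u x y ⬝ᵥ X z)
    {p p' q q' : Fin n} (h : p ≠ p' ∧ q ≠ q' ∧ G.Adj p q ∧ G.Adj p q' ∧ G.Adj p' q ∧ G.Adj p' q') :
    ∑ x, (univ.filter (G.Adj x)).card ≤ 2 * e0 3 n := by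
  have := lower4 G (fun x i => X x i) hG (fun x y h => ⟨fun i => u x y i, fun z hz => ?_,
    fun z hz => ?_⟩) h.1 h.2.1 h.2.2.1 h.2.2.2.1 h.2.2.2.2.1 h.2.2.2.2.2
  · convert this
    unfold E dg
    congr!
  · have := (hX x y h).1 z hz
    simp only [dotProduct] at this ⊢
    exact_mod_cast this
  · have := (hX x y h).2 z hz
    simp only [dotProduct] at this ⊢
    exact_mod_cast this

/-- six points -/
def X6 : Fin 6 → Fin 3 → ℤ :=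
  ![![2, 0, 0], ![0, 1, 1], ![0, 2, -1], ![1, 0, -2], ![0, -1, 0], ![-1, 0, -1]]

/-- separating functionals -/
def u6 : Fin 6 → Fin 6 → Fin 3 → ℤ :=
  ![![![0, 0, 0], ![5, -2, -2], ![1, -1, 0], ![4, -2, 9], ![7, 5, -3], ![1, 0, 0]],
  ![![-5, 2, 2], ![0, 0, 0], ![2, -4, 9], ![0, 0, 1], ![2, 7, 4], ![2, 2, 3]],
  ![![-1, 1, 0], ![-2, 4, -9], ![0, 0, 0], ![-2, 5, 2], ![0, 1, 0], ![5, 7, 3]],
  ![![-4, 2, -9], ![0, 0, -1], ![2, -5, -2], ![0, 0, 0], ![2, 2, -3], ![7, 2, -4]],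
  ![![-7, -5, 3], ![-2, -7, -4], ![0, -1, 0], ![-3, -2, 2], ![0, 0, 0], ![0, 0, 0]],
  ![![-1, 0, 0], ![-2, -3, -2], ![-5, -7, -3], ![-7, -2, 4], ![0, 0, 0], ![0, 0, 0]]]

/-- the complete graph on six points less an edge -/
def G6 : SimpleGraph (Fin 6) where
  Adj x y := x ≠ y ∧ (x < 4 ∨ y < 4)
  symm := ⟨fun _ _ h => ⟨h.1.symm, h.2.symm⟩⟩
  loopless := ⟨fun _ h => h.1 rfl⟩

instance : DecidableRel G6.Adj := fun x y => inferInstanceAs (Decidable (x ≠ y ∧ (x < 4 ∨ y < 4)))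

theorem lower6 : 14 ≤ e0 3 6 := by
  have := lowerZ G6 X6 u6 (by decide +kernel) (by decide +kernel) (p := 0) (p' := 1) (q := 2)
    (q' := 3) (by decide +kernel)
  rw [show ∑ x, (univ.filter (G6.Adj x)).card = 28 by decide +kernel] at this
  omega

theorem lower5 : 10 ≤ e0 3 5 := by
  have := lowerZ (⊤ : SimpleGraph (Fin 5)) (fun x => X6 x.castSucc)
    (fun x y => u6 x.castSucc y.castSucc) (by decide +kernel) (by decide +kernel) (p := 0)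
    (p' := 1) (q := 2) (q' := 3) (by decide +kernel)
  rw [show ∑ x, (univ.filter ((⊤ : SimpleGraph (Fin 5)).Adj x)).card = 20 by decide +kernel] at this
  omega

end Pool.Agent.P.MP_61d55c_co.Ex
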